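import Pool.Agent.H803R2.KakFibre
import Pool.Agent.H803R2.KakArea
set_option autoImplicit false

/-! Polynomials in two real variables: evaluation, derivatives, the fibre bound. -/

namespace Pool.Agent.Y183.PP

open MeasureTheory Set Filter Topology
open scoped ENNReal NNReal
open Pool.Agent.H803R2.Kak (Pol)

/-- real polynomials in two variables -/
abbrev Poly := MvPolynomial (Fin 2) ℝ

/-- value of a polynomial -/
noncomputable def ev (p : Poly) (z : ℝ × ℝ) : ℝ := MvPolynomial.eval ![z.1, z.2] p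

lemma ev_add (p q : Poly) (z : ℝ × ℝ) : ev (p + q) z = ev p z + ev q z := by simp [ev]
lemma ev_sub (p q : Poly) (z : ℝ × ℝ) : ev (p - q) z = ev p z - ev q z := by simp [ev]
lemma ev_mul (p q : Poly) (z : ℝ × ℝ) : ev (p * q) z = ev p z * ev q z := by simp [ev]
lemma ev_neg (p : Poly) (z : ℝ × ℝ) : ev (-p) z = -ev p z := by simp [ev]
lemma ev_pow (p : Poly) (n : ℕ) (z : ℝ × ℝ) : ev (p ^ n) z = ev p z ^ n := by simp [ev]
lemma ev_C (c : ℝ) (z : ℝ × ℝ) : ev (MvPolynomial.C c) z = c := by simp [ev]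
lemma ev_X0 (z : ℝ × ℝ) : ev (MvPolynomial.X 0) z = z.1 := by simp [ev]
lemma ev_X1 (z : ℝ × ℝ) : ev (MvPolynomial.X 1) z = z.2 := by simp [ev]
lemma ev_prod {ι : Type*} (s : Finset ι) (p : ι → Poly) (z : ℝ × ℝ) :
    ev (∏ i ∈ s, p i) z = ∏ i ∈ s, ev (p i) z := by simp [ev]

lemma ev_cont (p : Poly) : Continuous (ev p) := by
  unfold ev
  apply (MvPolynomial.continuous_eval p).comp
  apply continuous_pi
  intro i
  fin_cases i
  · exact continuous_fst
  · exact continuous_snd

/-- the derivative -/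
noncomputable def dv (p : Poly) (z : ℝ × ℝ) : ℝ × ℝ →L[ℝ] ℝ :=
  ev (MvPolynomial.pderiv 0 p) z • ContinuousLinearMap.fst ℝ ℝ ℝ +
    ev (MvPolynomial.pderiv 1 p) z • ContinuousLinearMap.snd ℝ ℝ ℝ

lemma dv_apply (p : Poly) (z w : ℝ × ℝ) : dv p z w =
    ev (MvPolynomial.pderiv 0 p) z * w.1 + ev (MvPolynomial.pderiv 1 p) z * w.2 := by
  simp [dv]

lemma ev_fderiv (p : Poly) (z : ℝ × ℝ) : HasFDerivAt (ev p) (dv p z) z := by
  induction p using MvPolynomial.induction_on with
  | C a =>
    have e1 : ev (MvPolynomial.C a) = fun _ => a := by ext w; exact ev_C a w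
    have e2 : dv (MvPolynomial.C a) z = 0 := by
      ext <;> simp [dv, ev]
    rw [e1, e2]
    exact hasFDerivAt_const a z
  | add p q hp hq =>
    have e1 : ev (p + q) = fun w => ev p w + ev q w := by ext w; exact ev_add p q w
    have e2 : dv (p + q) z = dv p z + dv q z := by
      ext <;> simp [dv, ev]
    rw [e1, e2]
    exact hp.add hq
  | mul_X p i hp =>
    have e1 : ev (p * MvPolynomial.X i) = fun w => ev p w * ev (MvPolynomial.X i) w := by
      ext w; exact ev_mul _ _ w
    have hX : HasFDerivAt (ev (MvPolynomial.X i)) (dv (MvPolynomial.X i) z) z := by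
      fin_cases i
      · have e1 : ev (MvPolynomial.X (0 : Fin 2)) = Prod.fst := by ext w; exact ev_X0 w
        have e2 : dv (MvPolynomial.X (0 : Fin 2)) z = ContinuousLinearMap.fst ℝ ℝ ℝ := by
          ext <;> simp [dv, ev, MvPolynomial.pderiv_X]
        show HasFDerivAt (ev (MvPolynomial.X (0 : Fin 2))) (dv (MvPolynomial.X (0 : Fin 2)) z) z
        rw [e1, e2]
        exact hasFDerivAt_fst
      · have e1 : ev (MvPolynomial.X (1 : Fin 2)) = Prod.snd := by ext w; exact ev_X1 w
        have e2 : dv (MvPolynomial.X (1 : Fin 2)) z = ContinuousLinearMap.snd ℝ ℝ ℝ := by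
          ext <;> simp [dv, ev, MvPolynomial.pderiv_X]
        show HasFDerivAt (ev (MvPolynomial.X (1 : Fin 2))) (dv (MvPolynomial.X (1 : Fin 2)) z) z
        rw [e1, e2]
        exact hasFDerivAt_snd
    have e2 : dv (p * MvPolynomial.X i) z = ev p z • dv (MvPolynomial.X i) z +
        ev (MvPolynomial.X i) z • dv p z := by
      apply ContinuousLinearMap.ext
      intro w
      simp only [add_apply, smul_apply, smul_eq_mul,
        dv_apply, MvPolynomial.pderiv_mul, ev_add, ev_mul]
      ring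
    rw [e1, e2]
    exact hp.mul hX

/-- derivative in the first variable -/
lemma ev_deriv1 (p : Poly) (x y : ℝ) :
    HasDerivAt (fun x => ev p (x, y)) (ev (MvPolynomial.pderiv 0 p) (x, y)) x := by
  have h1 : HasFDerivAt (fun x : ℝ => ((x, y) : ℝ × ℝ))
      ((ContinuousLinearMap.id ℝ ℝ).prod (0 : ℝ →L[ℝ] ℝ)) x :=
    (hasFDerivAt_id x).prodMk (hasFDerivAt_const y x)
  have h2 := ((ev_fderiv p (x, y)).comp x h1).hasDerivAt
  have e : (dv p (x, y)).comp ((ContinuousLinearMap.id ℝ ℝ).prod (0 : ℝ →L[ℝ] ℝ)) 1 =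
      ev (MvPolynomial.pderiv 0 p) (x, y) := by simp [dv]
  rw [e] at h2
  exact h2

lemma deg_pderiv (p : Poly) (j : Fin 2) : (MvPolynomial.pderiv j p).totalDegree ≤ p.totalDegree := by
  classical
  rw [MvPolynomial.totalDegree, Finset.sup_le_iff]
  intro m hm
  rw [MvPolynomial.mem_support_iff, MvPolynomial.coeff_pderiv] at hm
  have h1 : m + Finsupp.single j 1 ∈ p.support := by
    rw [MvPolynomial.mem_support_iff]
    exact left_ne_zero_of_mul hm
  have h2 := MvPolynomial.le_totalDegree h1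
  have h3 : ((m + Finsupp.single j 1).sum fun _ e => e) = (m.sum fun _ e => e) + 1 := by
    have : (m + Finsupp.single j 1).degree = m.degree + 1 := by
      rw [map_add, Finsupp.degree_single]
    exact this
  omega

lemma ev_mem (p : Poly) {k : ℕ} (hp : p.totalDegree ≤ k) :
    (fun v : EuclideanSpace ℝ (Fin 2) => ev p (v 0, v 1)) ∈ Pol 2 k := by
  have h : (fun v : EuclideanSpace ℝ (Fin 2) => ev p (v 0, v 1)) = ∑ m ∈ p.support,
      MvPolynomial.coeff m p • fun v : EuclideanSpace ℝ (Fin 2) => ∏ i : Fin 2, v i ^ (m i) := by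
    ext v
    unfold ev
    rw [MvPolynomial.eval_eq']
    simp [Finset.sum_apply, Fin.prod_univ_two]
  rw [h]
  apply Submodule.sum_mem
  intro m hm
  apply Submodule.smul_mem
  apply Pool.Agent.H803R2.Kak.mono_mem
  intro i
  refine le_trans ?_ hp
  refine le_trans ?_ (MvPolynomial.le_totalDegree hm)
  rw [Finsupp.sum_fintype _ _ (fun _ => rfl)]
  exact Finset.single_le_sum (f := fun i => m i) (fun _ _ => Nat.zero_le _) (Finset.mem_univ i)

/-- the bound of the fibres -/
def NN (k : ℕ) : ℕ := ((1 + 2 * k) ^ 2) ^ 2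

lemma mp_two : MeasurePreserving (fun z : ℝ × ℝ => (WithLp.toLp 2 ![z.1, z.2] :
    EuclideanSpace ℝ (Fin 2))) volume volume := by
  have h1 := (volume_preserving_finTwoArrow ℝ).symm
  have h2 := EuclideanSpace.volume_preserving_symm_measurableEquiv_toLp (Fin 2)
  have h3 := h2.symm
  have h4 := h3.comp h1
  exact h4

/-- **generic fibres** -/
lemma fibre (p q : Poly) {k : ℕ} (hk : 1 ≤ k) (hp : p.totalDegree ≤ k) (hq : q.totalDegree ≤ k) :
    ∀ᵐ y : ℝ × ℝ, {z : ℝ × ℝ | (ev p z, ev q z) = y}.encard ≤ (NN k : ℕ) := by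
  set P : EuclideanSpace ℝ (Fin 2) → EuclideanSpace ℝ (Fin 2) := fun v =>
    WithLp.toLp 2 ![ev p (v 0, v 1), ev q (v 0, v 1)] with hP
  have h1 := Pool.Agent.H803R2.Kak.ae_fibre_le (d := 2) (by norm_num) k hk P (by
    intro j
    fin_cases j
    · exact ev_mem p hp
    · exact ev_mem q hq)
  have h2 := mp_two.quasiMeasurePreserving.ae h1
  filter_upwards [h2] with y hy
  refine le_trans ?_ hy
  apply Set.encard_le_encard_of_injOn (f := fun z : ℝ × ℝ => (WithLp.toLp 2 ![z.1, z.2] :
    EuclideanSpace ℝ (Fin 2)))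
  · intro z hz
    simp only [mem_ofPred_eq] at hz ⊢
    rw [hP]
    ext j
    fin_cases j
    · have := congrArg Prod.fst hz
      simpa using this
    · have := congrArg Prod.snd hz
      simpa using this
  · intro z _ w _ h
    have h0 := congrArg (fun v : EuclideanSpace ℝ (Fin 2) => v 0) h
    have h1 := congrArg (fun v : EuclideanSpace ℝ (Fin 2) => v 1) h
    ext
    · simpa using h0
    · simpa using h1

end Pool.Agent.Y183.PP
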