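import Pool.Agent.Y183.PP.A
set_option autoImplicit false

/-! The projection lemma. -/

namespace Pool.Agent.Y183.PP

open MeasureTheory Set Filter Topology
open scoped ENNReal NNReal

/-- a two by two matrix as a map -/
noncomputable def J (a b c d : ℝ) : ℝ × ℝ →L[ℝ] ℝ × ℝ :=
  a • ((ContinuousLinearMap.fst ℝ ℝ ℝ).prod (0 : ℝ × ℝ →L[ℝ] ℝ)) +
  b • ((ContinuousLinearMap.snd ℝ ℝ ℝ).prod (0 : ℝ × ℝ →L[ℝ] ℝ)) +
  c • ((0 : ℝ × ℝ →L[ℝ] ℝ).prod (ContinuousLinearMap.fst ℝ ℝ ℝ)) +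
  d • ((0 : ℝ × ℝ →L[ℝ] ℝ).prod (ContinuousLinearMap.snd ℝ ℝ ℝ))

lemma J_apply (a b c d : ℝ) (w : ℝ × ℝ) : J a b c d w = (a * w.1 + b * w.2, c * w.1 + d * w.2) := by
  simp [J]

lemma J_det (a b c d : ℝ) : (J a b c d).det = a * d - b * c := by
  unfold ContinuousLinearMap.det
  rw [← LinearMap.det_toMatrix (Module.Basis.finTwoProd ℝ), Matrix.det_fin_two]
  simp [LinearMap.toMatrix_apply, J_apply]

lemma J_cont {X : Type*} [TopologicalSpace X] {a b c d : X → ℝ} (ha : Continuous a)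
    (hb : Continuous b) (hc : Continuous c) (hd : Continuous d) :
    Continuous fun x => J (a x) (b x) (c x) (d x) := by
  unfold J
  fun_prop

/-- the area inequality for two polynomials -/
lemma area (h p : Poly) (k : ℕ) (hk : 1 ≤ k) (hh : h.totalDegree ≤ k) (hp : p.totalDegree ≤ k)
    (ε lam : ℝ) (hε : 0 < ε) (hlam : 0 < lam) :
    ∫⁻ z in {z | |ev h z| < ε ∧ |ev p z| < lam},
      ENNReal.ofReal |ev (MvPolynomial.pderiv 0 h) z * ev (MvPolynomial.pderiv 1 p) z -
        ev (MvPolynomial.pderiv 1 h) z * ev (MvPolynomial.pderiv 0 p) z| ≤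
      (NN k : ℝ≥0∞) * ENNReal.ofReal (4 * ε * lam) := by
  have h1 := Pool.Agent.H803R2.Kak.lintegral_det_le_mul (volume : Measure (ℝ × ℝ))
    (φ := fun z => (ev h z, ev p z))
    (φ' := fun z => J (ev (MvPolynomial.pderiv 0 h) z) (ev (MvPolynomial.pderiv 1 h) z)
      (ev (MvPolynomial.pderiv 0 p) z) (ev (MvPolynomial.pderiv 1 p) z))
    (s := univ) (U := Ioo (-ε) ε ×ˢ Ioo (-lam) lam) (N := NN k) MeasurableSet.univ
    (measurableSet_Ioo.prod measurableSet_Ioo) (by
      intro z _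
      have h2 := (ev_fderiv h z).prodMk (ev_fderiv p z)
      have e : J (ev (MvPolynomial.pderiv 0 h) z) (ev (MvPolynomial.pderiv 1 h) z)
          (ev (MvPolynomial.pderiv 0 p) z) (ev (MvPolynomial.pderiv 1 p) z) =
          (dv h z).prod (dv p z) := by
        apply ContinuousLinearMap.ext
        intro w
        rw [J_apply]
        simp only [ContinuousLinearMap.prod_apply, dv_apply]
      simp only [e]
      exact h2)
    (J_cont (ev_cont _) (ev_cont _) (ev_cont _) (ev_cont _)).measurable (by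
      have h2 := fibre h p hk hh hp
      filter_upwards [h2] with y hy
      simpa using hy)
  simp only [J_det] at h1
  have e1 : {z : ℝ × ℝ | z ∈ (univ : Set (ℝ × ℝ)) ∧ (ev h z, ev p z) ∈ Ioo (-ε) ε ×ˢ Ioo (-lam) lam} =
      {z | |ev h z| < ε ∧ |ev p z| < lam} := by
    ext z
    simp only [mem_univ, true_and, mem_prod, mem_Ioo, mem_ofPred_eq, abs_lt]
  rw [e1] at h1
  refine h1.trans (le_of_eq ?_)
  congr 1
  rw [Measure.volume_eq_prod, Measure.prod_prod, Real.volume_Ioo, Real.volume_Ioo,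
    ← ENNReal.ofReal_mul (by linarith)]
  congr 1
  ring

/-- the right end of a component -/
lemma right_end (O : Set ℝ) (hO : IsOpen O) (hb : ∀ x ∈ O, x < 1) (x₀ : ℝ) (h0 : x₀ ∈ O) :
    ∃ β, x₀ < β ∧ β ∉ O ∧ ∀ x, x₀ ≤ x → x < β → x ∈ O := by
  set C : Set ℝ := {x | x₀ ≤ x} ∩ Oᶜ with hC
  have hCc : IsClosed C := (isClosed_le continuous_const continuous_id).inter hO.isClosed_compl
  have hne : C.Nonempty := ⟨1, (hb x₀ h0).le, fun h => lt_irrefl _ (hb 1 h)⟩
  have hbd : BddBelow C := ⟨x₀, fun x hx => hx.1⟩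
  have hmem := hCc.csInf_mem hne hbd
  refine ⟨sInf C, ?_, hmem.2, ?_⟩
  · rcases lt_or_eq_of_le (show x₀ ≤ sInf C from hmem.1) with h | h
    · exact h
    · exact absurd (h ▸ h0) hmem.2
  · intro x hx1 hx2
    by_contra hx
    exact absurd (csInf_le hbd (show x ∈ C from ⟨hx1, hx⟩)) (not_le.mpr hx2)

/-- the left end of a component -/
lemma left_end (O : Set ℝ) (hO : IsOpen O) (hb : ∀ x ∈ O, -1 < x) (x₀ : ℝ) (h0 : x₀ ∈ O) :
    ∃ β, β < x₀ ∧ β ∉ O ∧ ∀ x, β < x → x ≤ x₀ → x ∈ O := by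
  obtain ⟨β, h1, h2, h3⟩ := right_end (-O) hO.neg (fun x hx => by
    have := hb _ (Set.mem_neg.mp hx)
    linarith) (-x₀) (by simpa using h0)
  refine ⟨-β, by linarith, by simpa using h2, fun x hx1 hx2 => ?_⟩
  have := h3 (-x) (by linarith) (by linarith)
  simpa using this

section slices

variable {ι : Type} [Fintype ι] (r : ι → Poly)

/-- the basic open set -/
def EE : Set (ℝ × ℝ) := {z | ∀ i, 0 < ev (r i) z}

lemma EE_open : IsOpen (EE r) := by
  have : EE r = ⋂ i, {z | 0 < ev (r i) z} := by ext z; simp [EE]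
  rw [this]
  exact isOpen_iInter_of_finite fun i => isOpen_lt continuous_const (ev_cont _)

/-- the slice -/
def OO (y : ℝ) : Set ℝ := {x | (x, y) ∈ EE r}

lemma OO_open (y : ℝ) : IsOpen (OO r y) := (EE_open r).preimage (by fun_prop)

/-- the product -/
noncomputable def QQ : Poly := ∏ i, r i

/-- the derivative of the product -/
noncomputable def hh : Poly := MvPolynomial.pderiv 0 (QQ r)

lemma QQ_pos (z : ℝ × ℝ) (hz : z ∈ EE r) : 0 < ev (QQ r) z := by
  unfold QQ
  rw [ev_prod]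
  exact Finset.prod_pos fun i _ => hz i

lemma QQ_zero (y β : ℝ) (h : β ∉ OO r y) (hcl : β ∈ closure (OO r y)) :
    ev (QQ r) (β, y) = 0 := by
  unfold QQ
  rw [ev_prod]
  have h1 : ∀ i, 0 ≤ ev (r i) (β, y) := by
    intro i
    have h2 : IsClosed {x : ℝ | 0 ≤ ev (r i) (x, y)} :=
      isClosed_le continuous_const ((ev_cont _).comp (by fun_prop))
    have h3 : OO r y ⊆ {x : ℝ | 0 ≤ ev (r i) (x, y)} := fun x hx => (hx i).le
    exact closure_minimal h3 h2 hcl
  have h4 : ∃ i, ev (r i) (β, y) ≤ 0 := by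
    by_contra hc
    push Not at hc
    exact h hc
  obtain ⟨i, hi⟩ := h4
  exact Finset.prod_eq_zero (Finset.mem_univ i) (le_antisymm hi (h1 i))

lemma neg_pt (hb : ∀ z ∈ EE r, |z.1| < 1) (y x₀ : ℝ) (h0 : x₀ ∈ OO r y) :
    ∃ c, x₀ < c ∧ (∀ x, x₀ ≤ x → x ≤ c → x ∈ OO r y) ∧ ev (hh r) (c, y) < 0 := by
  obtain ⟨β, h1, h2, h3⟩ := right_end (OO r y) (OO_open r y)
    (fun x hx => (abs_lt.mp (hb _ hx)).2) x₀ h0
  have hcl : β ∈ closure (OO r y) := by
    rw [mem_closure_iff_seq_limit]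
    refine ⟨fun n => β - (β - x₀) / (n + 1), fun n => ?_, ?_⟩
    · have hn : (0 : ℝ) < n + 1 := by positivity
      have h4 : 0 < (β - x₀) / (n + 1) := div_pos (by linarith) hn
      have h5 : (β - x₀) / (n + 1) ≤ β - x₀ := by
        apply div_le_self (by linarith)
        have : (0 : ℝ) ≤ n := Nat.cast_nonneg n
        linarith
      exact h3 _ (by linarith) (by linarith)
    · have h4 := (tendsto_const_div_atTop_nhds_zero_nat (β - x₀)).comp (tendsto_add_atTop_nat 1)
      have h5 : Tendsto (fun n : ℕ => β - (β - x₀) / ((n : ℝ) + 1)) atTop (𝓝 (β - 0)) := by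
        apply Tendsto.const_sub
        refine h4.congr fun n => ?_
        simp
      simpa using h5
  have hz := QQ_zero r y β h2 hcl
  have hp := QQ_pos r (x₀, y) h0
  obtain ⟨c, hc, hc2⟩ := exists_hasDerivAt_eq_slope (fun x => ev (QQ r) (x, y))
    (fun x => ev (hh r) (x, y)) h1 (((ev_cont _).comp (by fun_prop)).continuousOn)
    (fun x _ => ev_deriv1 _ x y)
  refine ⟨c, hc.1, fun x hx1 hx2 => h3 x hx1 (lt_of_le_of_lt hx2 hc.2), ?_⟩
  simp only [hc2, hz]
  apply div_neg_of_neg_of_pos <;> linarith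

lemma pos_pt (hb : ∀ z ∈ EE r, |z.1| < 1) (y x₀ : ℝ) (h0 : x₀ ∈ OO r y) :
    ∃ c ∈ OO r y, 0 < ev (hh r) (c, y) := by
  obtain ⟨β, h1, h2, h3⟩ := left_end (OO r y) (OO_open r y)
    (fun x hx => (abs_lt.mp (hb _ hx)).1) x₀ h0
  have hcl : β ∈ closure (OO r y) := by
    rw [mem_closure_iff_seq_limit]
    refine ⟨fun n => β + (x₀ - β) / (n + 1), fun n => ?_, ?_⟩
    · have hn : (0 : ℝ) < n + 1 := by positivity
      have h4 : 0 < (x₀ - β) / (n + 1) := div_pos (by linarith) hn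
      have h5 : (x₀ - β) / (n + 1) ≤ x₀ - β := by
        apply div_le_self (by linarith)
        have : (0 : ℝ) ≤ n := Nat.cast_nonneg n
        linarith
      exact h3 _ (by linarith) (by linarith)
    · have h4 := (tendsto_const_div_atTop_nhds_zero_nat (x₀ - β)).comp (tendsto_add_atTop_nat 1)
      have h5 : Tendsto (fun n : ℕ => β + (x₀ - β) / ((n : ℝ) + 1)) atTop (𝓝 (β + 0)) := by
        apply Tendsto.const_add
        refine h4.congr fun n => ?_
        simp
      simpa using h5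
  have hz := QQ_zero r y β h2 hcl
  have hp := QQ_pos r (x₀, y) h0
  obtain ⟨c, hc, hc2⟩ := exists_hasDerivAt_eq_slope (fun x => ev (QQ r) (x, y))
    (fun x => ev (hh r) (x, y)) h1 (((ev_cont _).comp (by fun_prop)).continuousOn)
    (fun x _ => ev_deriv1 _ x y)
  refine ⟨c, h3 c hc.1 hc.2.le, ?_⟩
  simp only [hc2, hz]
  apply div_pos <;> linarith

/-- slices -/
lemma slice_low (hb : ∀ z ∈ EE r, |z.1| < 1) (ε : ℝ) (y x₀ : ℝ)
    (h0 : x₀ ∈ OO r y) (h1 : ε ≤ ev (hh r) (x₀, y)) :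
    ENNReal.ofReal ε ≤ ∫⁻ x in {x | (x, y) ∈ EE r ∧ |ev (hh r) (x, y)| < ε},
      ENNReal.ofReal |ev (MvPolynomial.pderiv 0 (hh r)) (x, y)| := by
  obtain ⟨c, hc1, hc2, hc3⟩ := neg_pt r hb y x₀ h0
  set f : ℝ → ℝ := fun x => ev (hh r) (x, y) with hf
  have hfc : Continuous f := (ev_cont _).comp (by fun_prop)
  set S : Set ℝ := {x | (x, y) ∈ EE r ∧ |ev (hh r) (x, y)| < ε} with hS
  have hSm : MeasurableSet S := by
    apply MeasurableSet.inter
    · exact (OO_open r y).measurableSet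
    · exact (isOpen_lt hfc.abs continuous_const).measurableSet
  have hsub : Ioo 0 ε ⊆ f '' S := by
    intro v hv
    have h2 := intermediate_value_Icc' hc1.le hfc.continuousOn
      (show v ∈ Icc (f c) (f x₀) from ⟨by simp only [hf]; linarith [hv.1], by
        simp only [hf]; linarith [hv.2]⟩)
    obtain ⟨x, hx, hxv⟩ := h2
    refine ⟨x, ⟨hc2 x hx.1 hx.2, ?_⟩, hxv⟩
    have : ev (hh r) (x, y) = v := hxv
    rw [this, abs_of_pos hv.1]
    exact hv.2
  have h3 := addHaar_image_le_lintegral_abs_det_fderiv volume hSm (f := f)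
    (f' := fun x => ContinuousLinearMap.toSpanSingleton ℝ (ev (MvPolynomial.pderiv 0 (hh r)) (x, y)))
    (fun x _ => (ev_deriv1 (hh r) x y).hasFDerivAt.hasFDerivWithinAt)
  calc ENNReal.ofReal ε = volume (Ioo 0 ε) := by rw [Real.volume_Ioo, sub_zero]
    _ ≤ volume (f '' S) := measure_mono hsub
    _ ≤ _ := h3
    _ = _ := by
      congr 1
      ext x
      simp

/-- **the projection lemma** -/
theorem proj (p q : Poly) (k : ℕ) (hk : 1 ≤ k)
    (hp : p.totalDegree ≤ k) (hq : q.totalDegree ≤ k) (hr : (QQ r).totalDegree ≤ k)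
    (s lam : ℝ) (hs : 0 < s) (hlam : 0 < lam)
    (hE : ∀ z ∈ EE r, |z.1| < 1 ∧ |ev p z| < lam ∧ |ev q z| < lam ∧
      ∀ a b : ℝ, s ^ 2 * (a ^ 2 + b ^ 2) ≤
        (ev (MvPolynomial.pderiv 0 p) z * a + ev (MvPolynomial.pderiv 1 p) z * b) ^ 2 +
        (ev (MvPolynomial.pderiv 0 q) z * a + ev (MvPolynomial.pderiv 1 q) z * b) ^ 2) :
    volume {y : ℝ | ∃ x : ℝ, (x, y) ∈ EE r} ≤ ENNReal.ofReal (8 * NN k * lam / s) := by
  have hb : ∀ z ∈ EE r, |z.1| < 1 := fun z hz => (hE z hz).1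
  set h := hh r with hh_def
  have hhd : h.totalDegree ≤ k := (deg_pderiv _ _).trans hr
  -- the integral over the thin set
  have step1 : ∀ ε : ℝ, 0 < ε → ∫⁻ z in {z | z ∈ EE r ∧ |ev h z| < ε},
      ENNReal.ofReal |ev (MvPolynomial.pderiv 0 h) z| ≤
      ENNReal.ofReal ε * ENNReal.ofReal (8 * NN k * lam / s) := by
    intro ε hε
    have a1 := area h p k hk hhd hp ε lam hε hlam
    have a2 := area h q k hk hhd hq ε lam hε hlam
    set D1 : ℝ × ℝ → ℝ := fun z => ev (MvPolynomial.pderiv 0 h) z * ev (MvPolynomial.pderiv 1 p) z -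
        ev (MvPolynomial.pderiv 1 h) z * ev (MvPolynomial.pderiv 0 p) z with hD1
    set D2 : ℝ × ℝ → ℝ := fun z => ev (MvPolynomial.pderiv 0 h) z * ev (MvPolynomial.pderiv 1 q) z -
        ev (MvPolynomial.pderiv 1 h) z * ev (MvPolynomial.pderiv 0 q) z with hD2
    have hD1c : Continuous D1 := ((ev_cont _).mul (ev_cont _)).sub ((ev_cont _).mul (ev_cont _))
    have hD2c : Continuous D2 := ((ev_cont _).mul (ev_cont _)).sub ((ev_cont _).mul (ev_cont _))
    set W : Set (ℝ × ℝ) := {z | z ∈ EE r ∧ |ev h z| < ε} with hW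
    have hWm : MeasurableSet W :=
      (EE_open r).measurableSet.inter (isOpen_lt (ev_cont h).abs continuous_const).measurableSet
    have hpt : ∀ z ∈ W, ENNReal.ofReal |ev (MvPolynomial.pderiv 0 h) z| ≤
        ENNReal.ofReal (1 / s) * (ENNReal.ofReal |D1 z| + ENNReal.ofReal |D2 z|) := by
      intro z hz
      have h1 := (hE z hz.1).2.2.2 (-ev (MvPolynomial.pderiv 1 h) z) (ev (MvPolynomial.pderiv 0 h) z)
      rw [← ENNReal.ofReal_add (abs_nonneg _) (abs_nonneg _), ← ENNReal.ofReal_mul (by positivity)]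
      apply ENNReal.ofReal_le_ofReal
      rw [one_div, ← div_eq_inv_mul, le_div_iff₀ hs]
      have h2 : (|ev (MvPolynomial.pderiv 0 h) z| * s) ^ 2 ≤ (|D1 z| + |D2 z|) ^ 2 := by
        have e1 : (|ev (MvPolynomial.pderiv 0 h) z| * s) ^ 2 =
            s ^ 2 * (ev (MvPolynomial.pderiv 0 h) z) ^ 2 := by
          rw [mul_pow, sq_abs]
          ring
        have e2 : (|D1 z| + |D2 z|) ^ 2 = D1 z ^ 2 + D2 z ^ 2 + 2 * (|D1 z| * |D2 z|) := by
          have := sq_abs (D1 z)
          have := sq_abs (D2 z)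
          nlinarith
        have e3 : D1 z ^ 2 + D2 z ^ 2 =
            (ev (MvPolynomial.pderiv 0 p) z * (-ev (MvPolynomial.pderiv 1 h) z) +
              ev (MvPolynomial.pderiv 1 p) z * ev (MvPolynomial.pderiv 0 h) z) ^ 2 +
            (ev (MvPolynomial.pderiv 0 q) z * (-ev (MvPolynomial.pderiv 1 h) z) +
              ev (MvPolynomial.pderiv 1 q) z * ev (MvPolynomial.pderiv 0 h) z) ^ 2 := by
          simp only [hD1, hD2]
          ring
        rw [e1, e2, e3]
        have e4 : 0 ≤ 2 * (|D1 z| * |D2 z|) := by positivity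
        have e5 : 0 ≤ s ^ 2 * (-ev (MvPolynomial.pderiv 1 h) z) ^ 2 := by positivity
        linarith
      exact le_of_sq_le_sq h2 (by positivity)
    calc ∫⁻ z in W, ENNReal.ofReal |ev (MvPolynomial.pderiv 0 h) z| ≤
        ∫⁻ z in W, ENNReal.ofReal (1 / s) * (ENNReal.ofReal |D1 z| + ENNReal.ofReal |D2 z|) :=
          setLIntegral_mono' hWm hpt
      _ = ENNReal.ofReal (1 / s) * ((∫⁻ z in W, ENNReal.ofReal |D1 z|) +
          (∫⁻ z in W, ENNReal.ofReal |D2 z|)) := by
          rw [lintegral_const_mul' _ _ ENNReal.ofReal_ne_top, lintegral_add_left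
            (hD1c.abs.measurable.ennreal_ofReal)]
      _ ≤ ENNReal.ofReal (1 / s) * ((NN k : ℝ≥0∞) * ENNReal.ofReal (4 * ε * lam) +
          (NN k : ℝ≥0∞) * ENNReal.ofReal (4 * ε * lam)) := by
          gcongr
          · refine le_trans (lintegral_mono_set ?_) a1
            intro z hz
            exact ⟨hz.2, (hE z hz.1).2.1⟩
          · refine le_trans (lintegral_mono_set ?_) a2
            intro z hz
            exact ⟨hz.2, (hE z hz.1).2.2.1⟩
      _ = _ := by
          rw [← two_mul, show (2 : ℝ≥0∞) = ENNReal.ofReal 2 by norm_num,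
            show (NN k : ℝ≥0∞) = ENNReal.ofReal (NN k) by rw [ENNReal.ofReal_natCast],
            ← ENNReal.ofReal_mul (by positivity), ← ENNReal.ofReal_mul (by positivity),
            ← ENNReal.ofReal_mul (by positivity), ← ENNReal.ofReal_mul (by positivity)]
          congr 1
          field_simp
          ring
  -- Chebyshev
  have step2 : ∀ ε : ℝ, 0 < ε → volume {y : ℝ | ∃ x : ℝ, (x, y) ∈ EE r ∧ ε ≤ ev h (x, y)} ≤
      ENNReal.ofReal (8 * NN k * lam / s) := by
    intro ε hε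
    set W : Set (ℝ × ℝ) := {z | z ∈ EE r ∧ |ev h z| < ε} with hW
    have hWm : MeasurableSet W :=
      (EE_open r).measurableSet.inter (isOpen_lt (ev_cont h).abs continuous_const).measurableSet
    set G : ℝ × ℝ → ℝ≥0∞ := W.indicator fun z => ENNReal.ofReal |ev (MvPolynomial.pderiv 0 h) z|
      with hG
    have hGm : Measurable G := (ev_cont _).abs.measurable.ennreal_ofReal.indicator hWm
    have h1 : ∫⁻ y, ∫⁻ x, G (x, y) ≤ ENNReal.ofReal ε * ENNReal.ofReal (8 * NN k * lam / s) := by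
      refine le_trans (le_of_eq ?_) (step1 ε hε)
      rw [← lintegral_prod_symm _ hGm.aemeasurable, ← Measure.volume_eq_prod, hG,
        lintegral_indicator hWm]
    have h2 : {y : ℝ | ∃ x : ℝ, (x, y) ∈ EE r ∧ ε ≤ ev h (x, y)} ⊆
        {y | ENNReal.ofReal ε ≤ ∫⁻ x, G (x, y)} := by
      rintro y ⟨x, hx, hxe⟩
      have h3 := slice_low r hb ε y x hx hxe
      refine h3.trans (le_of_eq ?_)
      rw [← lintegral_indicator]
      · congr 1
      · apply MeasurableSet.inter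
        · exact (OO_open r y).measurableSet
        · exact (isOpen_lt ((ev_cont (hh r)).comp (by fun_prop)).abs
            continuous_const).measurableSet
    have h4 := mul_meas_ge_le_lintegral (μ := volume) (hGm.lintegral_prod_left' (μ := volume))
      (ENNReal.ofReal ε)
    have h5 : ENNReal.ofReal ε * volume {y : ℝ | ∃ x : ℝ, (x, y) ∈ EE r ∧ ε ≤ ev h (x, y)} ≤
        ENNReal.ofReal ε * ENNReal.ofReal (8 * NN k * lam / s) :=
      (mul_le_mul_right (measure_mono h2) _).trans (h4.trans h1)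
    exact (ENNReal.mul_le_mul_iff_right (by simpa using hε) ENNReal.ofReal_ne_top).mp h5
  -- the union
  have h6 : {y : ℝ | ∃ x : ℝ, (x, y) ∈ EE r} ⊆
      ⋃ n : ℕ, {y : ℝ | ∃ x : ℝ, (x, y) ∈ EE r ∧ 1 / ((n : ℝ) + 1) ≤ ev h (x, y)} := by
    rintro y ⟨x, hx⟩
    obtain ⟨c, hc, hc2⟩ := pos_pt r hb y x hx
    obtain ⟨n, hn⟩ := exists_nat_one_div_lt hc2
    exact mem_iUnion.mpr ⟨n, c, hc, hn.le⟩
  refine (measure_mono h6).trans ?_
  rw [Monotone.measure_iUnion]
  · apply iSup_le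
    intro n
    exact step2 _ (by positivity)
  · intro m n hmn y hy
    obtain ⟨x, hx, hx2⟩ := hy
    refine ⟨x, hx, le_trans ?_ hx2⟩
    apply one_div_le_one_div_of_le (by positivity)
    have : (m : ℝ) ≤ n := by exact_mod_cast hmn
    linarith

end slices

end Pool.Agent.Y183.PP
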