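import Mathlib
set_option autoImplicit false

/-! One-dimensional oscillatory integrals with amplitudes of bounded variation. -/

namespace Pool.Agent.Y183.PP

open MeasureTheory Set Filter Topology Complex
open scoped ENNReal NNReal

/-- first derivative test -/
lemma vdc (P P1 P2 : ℝ → ℝ) (h1 : ∀ x, HasDerivAt P (P1 x) x) (h2 : ∀ x, HasDerivAt P1 (P2 x) x)
    (hc : Continuous P2) (a b : ℝ) (hab : a ≤ b) (μ : ℝ) (hμ : 0 < μ)
    (hm : ∀ x ∈ Icc a b, μ ≤ |P1 x|)
    (hs : (∀ x ∈ Icc a b, 0 ≤ P2 x) ∨ (∀ x ∈ Icc a b, P2 x ≤ 0)) :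
    ‖∫ x in a..b, cexp ((P x : ℂ) * I)‖ ≤ 3 / μ := by
  have hc1 : Continuous P1 := continuous_iff_continuousAt.mpr fun x => (h2 x).continuousAt
  have hc0 : Continuous P := continuous_iff_continuousAt.mpr fun x => (h1 x).continuousAt
  have hne : ∀ x ∈ Icc a b, P1 x ≠ 0 := by
    intro x hx h
    have := hm x hx
    rw [h, abs_zero] at this
    linarith
  -- integration by parts
  set u : ℝ → ℂ := fun x => ((P1 x : ℂ) * I)⁻¹ with hu
  set u' : ℝ → ℂ := fun x => -((P2 x : ℂ) * I) / ((P1 x : ℂ) * I) ^ 2 with hu'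
  set v : ℝ → ℂ := fun x => cexp ((P x : ℂ) * I) with hv
  set v' : ℝ → ℂ := fun x => cexp ((P x : ℂ) * I) * ((P1 x : ℂ) * I) with hv'
  have hI : ∀ x ∈ Icc a b, (P1 x : ℂ) * I ≠ 0 := fun x hx =>
    mul_ne_zero (by exact_mod_cast hne x hx) I_ne_zero
  have hu1 : ∀ x ∈ uIcc a b, HasDerivAt u (u' x) x := by
    intro x hx
    rw [uIcc_of_le hab] at hx
    have h3 : HasDerivAt (fun x : ℝ => (P1 x : ℂ) * I) ((P2 x : ℂ) * I) x :=
      ((h2 x).ofReal_comp).mul_const I
    exact h3.inv (hI x hx)
  have hv1 : ∀ x ∈ uIcc a b, HasDerivAt v (v' x) x := by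
    intro x _
    have h3 : HasDerivAt (fun x : ℝ => (P x : ℂ) * I) ((P1 x : ℂ) * I) x :=
      ((h1 x).ofReal_comp).mul_const I
    exact h3.cexp
  have hu'c : ContinuousOn u' (uIcc a b) := by
    rw [uIcc_of_le hab]
    apply ContinuousOn.div
    · exact ((continuous_ofReal.comp hc).mul continuous_const).neg.continuousOn
    · exact (((continuous_ofReal.comp hc1).mul continuous_const).pow 2).continuousOn
    · intro x hx
      exact pow_ne_zero 2 (hI x hx)
  have hv'c : Continuous v' :=
    (Complex.continuous_exp.comp ((continuous_ofReal.comp hc0).mul continuous_const)).mul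
      ((continuous_ofReal.comp hc1).mul continuous_const)
  have hparts := intervalIntegral.integral_mul_deriv_eq_deriv_mul hu1 hv1
    hu'c.intervalIntegrable (hv'c.intervalIntegrable a b)
  have e1 : ∫ x in a..b, cexp ((P x : ℂ) * I) = ∫ x in a..b, u x * v' x := by
    apply intervalIntegral.integral_congr
    intro x hx
    rw [uIcc_of_le hab] at hx
    simp only [hu, hv']
    rw [mul_comm (cexp _), ← mul_assoc, inv_mul_cancel₀ (hI x hx), one_mul]
  rw [e1, hparts]
  have nv : ∀ x, ‖v x‖ = 1 := fun x => by simp only [hv]; exact Complex.norm_exp_ofReal_mul_I _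
  have nu : ∀ x ∈ Icc a b, ‖u x‖ ≤ 1 / μ := by
    intro x hx
    simp only [hu]
    rw [norm_inv, norm_mul, Complex.norm_I, mul_one, Complex.norm_real, Real.norm_eq_abs, ← one_div]
    exact one_div_le_one_div_of_le hμ (hm x hx)
  -- the integral of the derivative
  have hw : ∀ x ∈ uIcc a b, HasDerivAt (fun x => -(P1 x)⁻¹) (P2 x / (P1 x) ^ 2) x := by
    intro x hx
    rw [uIcc_of_le hab] at hx
    have h3 : HasDerivAt (fun x => -(P1 x)⁻¹) (-(-P2 x / (P1 x) ^ 2)) x :=
      ((h2 x).inv (hne x hx)).neg
    rwa [neg_div, neg_neg] at h3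
  have hwc : ContinuousOn (fun x => P2 x / (P1 x) ^ 2) (uIcc a b) := by
    rw [uIcc_of_le hab]
    exact hc.continuousOn.div (hc1.pow 2).continuousOn fun x hx => pow_ne_zero 2 (hne x hx)
  have hwi := intervalIntegral.integral_eq_sub_of_hasDerivAt hw hwc.intervalIntegrable
  -- constant sign of P1
  have hsign : (∀ x ∈ Icc a b, μ ≤ P1 x) ∨ (∀ x ∈ Icc a b, P1 x ≤ -μ) := by
    by_contra hcon
    push Not at hcon
    obtain ⟨⟨x, hx, hx1⟩, ⟨y, hy, hy1⟩⟩ := hcon
    have hx2 : P1 x ≤ -μ := by
      rcases le_abs.mp (hm x hx) with h | h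
      · linarith
      · linarith
    have hy2 : μ ≤ P1 y := by
      rcases le_abs.mp (hm y hy) with h | h
      · linarith
      · linarith
    have h3 : (0 : ℝ) ∈ P1 '' uIcc x y := by
      have h4 := intermediate_value_uIcc (a := x) (b := y) hc1.continuousOn
      apply h4
      rw [mem_uIcc]
      left
      constructor <;> linarith
    obtain ⟨z, hz, hz0⟩ := h3
    have hz1 : z ∈ Icc a b := by
      have h5 : uIcc x y ⊆ Icc a b := by
        rw [← uIcc_of_le hab]
        apply uIcc_subset_uIcc <;> rw [uIcc_of_le hab]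
        · exact hx
        · exact hy
      exact h5 hz
    exact hne z hz1 hz0
  have hdiff : |(∫ x in a..b, P2 x / (P1 x) ^ 2)| ≤ 1 / μ := by
    rw [hwi]
    have ha := left_mem_Icc.mpr hab
    have hb := right_mem_Icc.mpr hab
    rcases hsign with h | h
    · have a1 : 0 < (P1 a)⁻¹ := inv_pos.mpr (by linarith [h a ha])
      have b1 : 0 < (P1 b)⁻¹ := inv_pos.mpr (by linarith [h b hb])
      have a2 : (P1 a)⁻¹ ≤ 1 / μ := by rw [one_div]; exact inv_anti₀ hμ (h a ha)
      have b2 : (P1 b)⁻¹ ≤ 1 / μ := by rw [one_div]; exact inv_anti₀ hμ (h b hb)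
      rw [abs_le]
      constructor <;> linarith
    · have a1 : 0 < (-P1 a)⁻¹ := inv_pos.mpr (by linarith [h a ha])
      have b1 : 0 < (-P1 b)⁻¹ := inv_pos.mpr (by linarith [h b hb])
      have a2 : (-P1 a)⁻¹ ≤ 1 / μ := by rw [one_div]; exact inv_anti₀ hμ (by linarith [h a ha])
      have b2 : (-P1 b)⁻¹ ≤ 1 / μ := by rw [one_div]; exact inv_anti₀ hμ (by linarith [h b hb])
      rw [inv_neg] at a1 a2 b1 b2
      rw [abs_le]
      constructor <;> linarith
  have hint : ‖∫ x in a..b, u' x * v x‖ ≤ 1 / μ := by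
    have h3 : ∀ x ∈ Icc a b, ‖u' x * v x‖ = |P2 x / (P1 x) ^ 2| := by
      intro x _
      rw [norm_mul, nv, mul_one]
      simp only [hu']
      rw [norm_div, norm_neg, norm_mul, Complex.norm_I, mul_one, norm_pow, norm_mul, Complex.norm_I,
        mul_one, Complex.norm_real, Complex.norm_real, Real.norm_eq_abs, Real.norm_eq_abs, abs_div,
        abs_pow]
    refine (intervalIntegral.norm_integral_le_integral_norm hab).trans ?_
    rw [intervalIntegral.integral_congr (g := fun x => |P2 x / (P1 x) ^ 2|) (by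
      intro x hx
      rw [uIcc_of_le hab] at hx
      exact h3 x hx)]
    refine le_trans (le_of_eq ?_) hdiff
    rcases hs with h | h
    · have e2 : ∫ x in a..b, |P2 x / (P1 x) ^ 2| = ∫ x in a..b, P2 x / (P1 x) ^ 2 := by
        apply intervalIntegral.integral_congr
        intro x hx
        rw [uIcc_of_le hab] at hx
        exact abs_of_nonneg (div_nonneg (h x hx) (by positivity))
      have e3 : 0 ≤ ∫ x in a..b, P2 x / (P1 x) ^ 2 :=
        intervalIntegral.integral_nonneg hab fun x hx => div_nonneg (h x hx) (by positivity)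
      rw [e2, abs_of_nonneg e3]
    · have e2 : ∫ x in a..b, |P2 x / (P1 x) ^ 2| = ∫ x in a..b, -(P2 x / (P1 x) ^ 2) := by
        apply intervalIntegral.integral_congr
        intro x hx
        rw [uIcc_of_le hab] at hx
        exact abs_of_nonpos (div_nonpos_of_nonpos_of_nonneg (h x hx) (by positivity))
      have e3 : 0 ≤ ∫ x in a..b, -(P2 x / (P1 x) ^ 2) :=
        intervalIntegral.integral_nonneg hab fun x hx =>
          neg_nonneg.mpr (div_nonpos_of_nonpos_of_nonneg (h x hx) (by positivity))
      rw [e2]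
      rw [intervalIntegral.integral_neg] at e3 ⊢
      rw [abs_of_nonpos (by linarith)]
  have ha := left_mem_Icc.mpr hab
  have hb := right_mem_Icc.mpr hab
  calc ‖u b * v b - u a * v a - ∫ x in a..b, u' x * v x‖ ≤
      ‖u b * v b‖ + ‖u a * v a‖ + ‖∫ x in a..b, u' x * v x‖ :=
        (norm_sub_le _ _).trans (add_le_add_left (norm_sub_le _ _) _)
    _ ≤ 1 / μ + 1 / μ + 1 / μ := by
        rw [norm_mul, norm_mul, nv, nv, mul_one, mul_one]
        exact add_le_add (add_le_add (nu b hb) (nu a ha)) hint
    _ = 3 / μ := by ring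

/-- amplitudes of bounded variation -/
lemma bv_amp (g f : ℝ → ℂ) (hg : Measurable g) (hf : Continuous f) (hf1 : ∀ x, ‖f x‖ ≤ 1)
    (a b : ℝ) (hab : a ≤ b) (M B V : ℝ) (hM : 0 ≤ M) (hV : 0 ≤ V)
    (hgB : ∀ x ∈ Icc a b, ‖g x‖ ≤ B) (hvar : eVariationOn g (Icc a b) ≤ ENNReal.ofReal V)
    (hF : ∀ x ∈ Icc a b, ‖∫ t in a..x, f t‖ ≤ M) :
    ‖∫ x in a..b, g x * f x‖ ≤ M * (B + V) := by
  have hB0 : 0 ≤ B := (norm_nonneg _).trans (hgB a (left_mem_Icc.mpr hab))
  -- for every n
  have key : ∀ n : ℕ, 0 < n → ‖∫ x in a..b, g x * f x‖ ≤ M * (B + V) + V * ((b - a) / n) := by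
    intro n hn
    have hn' : (0 : ℝ) < n := by exact_mod_cast hn
    set δ : ℝ := (b - a) / n with hδ
    have hδ0 : 0 ≤ δ := div_nonneg (by linarith) hn'.le
    set x : ℕ → ℝ := fun k => a + min k n * δ with hx
    have hxk : ∀ k, k ≤ n → x k = a + k * δ := by
      intro k hk
      simp only [hx]
      rw [min_eq_left (by exact_mod_cast hk)]
    have hx0 : x 0 = a := by simp [hx]
    have hxn : x n = b := by
      rw [hxk n le_rfl, hδ]
      field_simp
      ring
    have hxmono : Monotone x := by
      intro i j hij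
      simp only [hx]
      have : (i : ℝ) ≤ j := by exact_mod_cast hij
      gcongr
    have hxI : ∀ k, x k ∈ Icc a b := by
      intro k
      constructor
      · rw [← hx0]; exact hxmono (Nat.zero_le k)
      · rcases le_total k n with h | h
        · rw [← hxn]; exact hxmono h
        · have : x k = x n := by
            simp only [hx]
            rw [min_eq_right (by exact_mod_cast h), min_self]
          rw [this, hxn]
    have hvsum : ∑ i ∈ Finset.range n, ‖g (x (i + 1)) - g (x i)‖ ≤ V := by
      have h1 := eVariationOn.sum_le (f := g) (s := Icc a b) (n := n) hxmono hxI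
      have h2 := h1.trans hvar
      have h3 : ∑ i ∈ Finset.range n, edist (g (x (i + 1))) (g (x i)) =
          ENNReal.ofReal (∑ i ∈ Finset.range n, ‖g (x (i + 1)) - g (x i)‖) := by
        rw [ENNReal.ofReal_sum_of_nonneg fun _ _ => norm_nonneg _]
        apply Finset.sum_congr rfl
        intro i _
        rw [edist_dist, dist_eq_norm]
      rw [h3] at h2
      exact (ENNReal.ofReal_le_ofReal_iff hV).mp h2
    have hfi : ∀ c d : ℝ, IntervalIntegrable f volume c d := fun c d => hf.intervalIntegrable c d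
    have hgfi : ∀ c ∈ Icc a b, ∀ d ∈ Icc a b, IntervalIntegrable (fun t => g t * f t) volume c d := by
      intro c hc d hd
      rw [intervalIntegrable_iff]
      apply Measure.integrableOn_of_bounded (M := B) (by simp)
      · exact (hg.mul hf.measurable).aestronglyMeasurable
      · rw [ae_restrict_iff' measurableSet_uIoc]
        refine ae_of_all _ fun t ht => ?_
        have htI : t ∈ Icc a b := by
          have h5 : uIcc c d ⊆ Icc a b := by
            rw [← uIcc_of_le hab]
            apply uIcc_subset_uIcc <;> rw [uIcc_of_le hab] <;> assumption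
          exact h5 (uIoc_subset_uIcc ht)
        rw [norm_mul]
        calc ‖g t‖ * ‖f t‖ ≤ B * 1 := mul_le_mul (hgB t htI) (hf1 t) (norm_nonneg _) hB0
          _ = B := mul_one _
    -- splitting
    have hsplit : ∫ t in a..b, g t * f t = ∑ i ∈ Finset.range n, ∫ t in (x i)..(x (i + 1)),
        g t * f t := by
      rw [intervalIntegral.sum_integral_adjacent_intervals (fun i _ => hgfi _ (hxI i) _ (hxI _)),
        hx0, hxn]
    have hcell : ∀ i ∈ Finset.range n, ∫ t in (x i)..(x (i + 1)), g t * f t =
        g (x (i + 1)) * (∫ t in (x i)..(x (i + 1)), f t) +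
        ∫ t in (x i)..(x (i + 1)), (g t - g (x (i + 1))) * f t := by
      intro i _
      rw [← intervalIntegral.integral_const_mul, ← intervalIntegral.integral_add]
      · apply intervalIntegral.integral_congr
        intro t _
        simp only
        ring
      · exact (hfi _ _).const_mul _
      · have : (fun t => (g t - g (x (i + 1))) * f t) = fun t => g t * f t - g (x (i + 1)) * f t := by
          ext t; ring
        rw [this]
        exact (hgfi _ (hxI i) _ (hxI _)).sub ((hfi _ _).const_mul _)
    -- the error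
    have hwidth : ∀ i, x (i + 1) - x i ≤ δ := by
      intro i
      simp only [hx]
      have h1 : ((min (i + 1) n : ℕ) : ℝ) ≤ ((min i n : ℕ) : ℝ) + 1 := by
        have : min (i + 1) n ≤ min i n + 1 := by omega
        exact_mod_cast this
      nlinarith
    have hvloc : ∀ m : ℕ, ∑ i ∈ Finset.range m, eVariationOn g (Icc (x i) (x (i + 1))) ≤
        eVariationOn g (Icc a (x m)) := by
      intro m
      induction m with
      | zero => simp
      | succ m ih =>
        rw [Finset.sum_range_succ]
        refine (add_le_add_left ih _).trans (le_of_eq ?_)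
        have h1 := eVariationOn.Icc_add_Icc g (s := univ) (a := a) (b := x m) (c := x (m + 1))
          (hxI m).1 (hxmono (Nat.le_succ m)) (mem_univ _)
        simpa using h1
    have hvfin : ∀ i, i < n → eVariationOn g (Icc (x i) (x (i + 1))) ≠ ∞ := by
      intro i _
      apply ne_top_of_le_ne_top ENNReal.ofReal_ne_top (le_trans _ hvar)
      apply eVariationOn.mono
      exact Icc_subset_Icc (hxI i).1 (hxI (i + 1)).2
    have herr : ∀ i ∈ Finset.range n, ‖∫ t in (x i)..(x (i + 1)), (g t - g (x (i + 1))) * f t‖ ≤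
        (eVariationOn g (Icc (x i) (x (i + 1)))).toReal * δ := by
      intro i hi
      have hi' := Finset.mem_range.mp hi
      have hle : x i ≤ x (i + 1) := hxmono (Nat.le_succ i)
      have h1 : ∀ t ∈ Set.uIoc (x i) (x (i + 1)), ‖(g t - g (x (i + 1))) * f t‖ ≤
          (eVariationOn g (Icc (x i) (x (i + 1)))).toReal := by
        intro t ht
        rw [uIoc_of_le hle] at ht
        rw [norm_mul]
        have h2 : ‖g t - g (x (i + 1))‖ ≤ (eVariationOn g (Icc (x i) (x (i + 1)))).toReal := by
          have h3 := eVariationOn.edist_le g (s := Icc (x i) (x (i + 1))) (x := t) (y := x (i + 1))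
            ⟨ht.1.le, ht.2⟩ ⟨hle, le_rfl⟩
          rw [← dist_eq_norm, dist_edist]
          exact ENNReal.toReal_mono (hvfin i hi') h3
        calc ‖g t - g (x (i + 1))‖ * ‖f t‖ ≤ (eVariationOn g (Icc (x i) (x (i + 1)))).toReal * 1 :=
              mul_le_mul h2 (hf1 t) (norm_nonneg _) ENNReal.toReal_nonneg
          _ = _ := mul_one _
      refine (intervalIntegral.norm_integral_le_of_norm_le_const h1).trans ?_
      gcongr
      rw [abs_of_nonneg (by linarith)]
      exact hwidth i
    have herr2 : ∑ i ∈ Finset.range n, ‖∫ t in (x i)..(x (i + 1)), (g t - g (x (i + 1))) * f t‖ ≤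
        V * δ := by
      refine (Finset.sum_le_sum herr).trans ?_
      rw [← Finset.sum_mul]
      gcongr
      rw [← ENNReal.toReal_sum (fun i hi => hvfin i (Finset.mem_range.mp hi))]
      have h2 := hvloc n
      rw [hxn] at h2
      exact ENNReal.toReal_le_of_le_ofReal hV (h2.trans hvar)
    -- Abel summation
    set F : ℕ → ℂ := fun k => ∫ t in a..(x k), f t with hFdef
    have hFk : ∀ k, ‖F k‖ ≤ M := fun k => hF _ (hxI k)
    have hF0 : F 0 = 0 := by simp [hFdef, hx0]
    have hFd : ∀ i, ∫ t in (x i)..(x (i + 1)), f t = F (i + 1) - F i := by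
      intro i
      simp only [hFdef]
      rw [intervalIntegral.integral_interval_sub_left (hfi _ _) (hfi _ _)]
    have habel : ∀ m : ℕ, ‖∑ i ∈ Finset.range m, g (x (i + 1)) * (F (i + 1) - F i)‖ ≤
        M * (‖g (x m)‖ + ∑ i ∈ Finset.range m, ‖g (x (i + 1)) - g (x i)‖) := by
      intro m
      have h1 : ∀ m : ℕ, ∑ i ∈ Finset.range m, g (x (i + 1)) * (F (i + 1) - F i) =
          g (x m) * F m - ∑ i ∈ Finset.range m, (g (x (i + 1)) - g (x i)) * F i := by
        intro m
        induction m with
        | zero => simp [hF0]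
        | succ m ih =>
          rw [Finset.sum_range_succ, ih, Finset.sum_range_succ]
          ring
      rw [h1]
      refine (norm_sub_le _ _).trans ?_
      rw [mul_add, Finset.mul_sum]
      apply add_le_add
      · rw [norm_mul, mul_comm]
        gcongr
        exact hFk m
      · refine (norm_sum_le _ _).trans (Finset.sum_le_sum fun i _ => ?_)
        rw [norm_mul, mul_comm]
        gcongr
        exact hFk i
    rw [hsplit, Finset.sum_congr rfl hcell, Finset.sum_add_distrib]
    refine (norm_add_le _ _).trans ?_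
    apply add_le_add
    · simp only [hFd]
      refine (habel n).trans ?_
      gcongr
      rw [hxn]
      exact hgB b (right_mem_Icc.mpr hab)
    · exact (norm_sum_le _ _).trans herr2
  -- the limit
  have hlim : Tendsto (fun n : ℕ => M * (B + V) + V * ((b - a) / n)) atTop (𝓝 (M * (B + V) + V * 0)) :=
    (tendsto_const_nhds.add ((tendsto_const_div_atTop_nhds_zero_nat (b - a)).const_mul V))
  rw [mul_zero, add_zero] at hlim
  apply ge_of_tendsto hlim
  filter_upwards [eventually_gt_atTop 0] with n hn
  exact key n hn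

/-- summing over gaps -/
lemma gaps (f : ℝ → ℂ) (K : ℝ) (hK : 0 ≤ K) : ∀ (n : ℕ) (Z : Finset ℝ), Z.card ≤ n → ∀ a b : ℝ,
    a ≤ b → IntervalIntegrable f volume a b →
    (∀ u v : ℝ, a ≤ u → u ≤ v → v ≤ b → (∀ z ∈ Z, z ∉ Ioo u v) → ‖∫ x in u..v, f x‖ ≤ K) →
    ‖∫ x in a..b, f x‖ ≤ (n + 1) * K := by
  intro n
  induction n using Nat.strong_induction_on with
  | _ n ih =>
    intro Z hZ a b hab hf h
    by_cases hcase : ∀ z ∈ Z, z ∉ Ioo a b
    · refine (h a b le_rfl hab le_rfl hcase).trans ?_
      have : (0 : ℝ) ≤ n := Nat.cast_nonneg n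
      nlinarith
    · push Not at hcase
      obtain ⟨z, hz, hzI⟩ := hcase
      have hfz : IntervalIntegrable f volume a z :=
        hf.mono_set (by rw [uIcc_of_le hab, uIcc_of_le hzI.1.le]; exact Icc_subset_Icc_right hzI.2.le)
      have hfz2 : IntervalIntegrable f volume z b :=
        hf.mono_set (by rw [uIcc_of_le hab, uIcc_of_le hzI.2.le]; exact Icc_subset_Icc_left hzI.1.le)
      set Z1 := Z.filter (· < z) with hZ1
      set Z2 := Z.filter (z < ·) with hZ2
      have hcard : Z1.card + Z2.card + 1 ≤ n := by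
        have h1 : Disjoint Z1 Z2 := by
          rw [Finset.disjoint_left]
          intro w hw1 hw2
          have := (Finset.mem_filter.mp hw1).2
          have := (Finset.mem_filter.mp hw2).2
          linarith
        have h2 : Z1 ∪ Z2 ⊆ Z.erase z := by
          intro w hw
          rcases Finset.mem_union.mp hw with h3 | h3
          · exact Finset.mem_erase.mpr ⟨(Finset.mem_filter.mp h3).2.ne, (Finset.mem_filter.mp h3).1⟩
          · exact Finset.mem_erase.mpr ⟨(Finset.mem_filter.mp h3).2.ne', (Finset.mem_filter.mp h3).1⟩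
        have h3 := Finset.card_le_card h2
        rw [Finset.card_union_of_disjoint h1, Finset.card_erase_of_mem hz] at h3
        have h4 : 1 ≤ Z.card := Finset.card_pos.mpr ⟨z, hz⟩
        omega
      have i1 := ih Z1.card (by omega) Z1 le_rfl a z hzI.1.le hfz (by
        intro u v hu huv hv hZu
        apply h u v hu huv (hv.trans hzI.2.le)
        intro w hw hwI
        exact hZu w (Finset.mem_filter.mpr ⟨hw, lt_of_lt_of_le hwI.2 hv⟩) hwI)
      have i2 := ih Z2.card (by omega) Z2 le_rfl z b hzI.2.le hfz2 (by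
        intro u v hu huv hv hZu
        apply h u v (hzI.1.le.trans hu) huv hv
        intro w hw hwI
        exact hZu w (Finset.mem_filter.mpr ⟨hw, lt_of_le_of_lt hu hwI.1⟩) hwI)
      rw [← intervalIntegral.integral_add_adjacent_intervals hfz hfz2]
      refine (norm_add_le _ _).trans ((add_le_add i1 i2).trans ?_)
      have h5 : ((Z1.card : ℝ) + 1) + (Z2.card + 1) ≤ n + 1 := by
        have : ((Z1.card + Z2.card + 1 : ℕ) : ℝ) ≤ n := by exact_mod_cast hcard
        push_cast at this
        linarith
      nlinarith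

end Pool.Agent.Y183.PP
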