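import Pool.Agent.Y183.PP.B
import Pool.Agent.Y183.PP.C
set_option autoImplicit false

/-! The Hessian conditions and the estimate on lines. -/

namespace Pool.Agent.Y183.PP

open MeasureTheory Set Filter Topology Complex
open scoped ENNReal NNReal

/-- partial derivatives commute -/
lemma pd_comm (i j : Fin 2) (p : Poly) : MvPolynomial.pderiv i (MvPolynomial.pderiv j p) =
    MvPolynomial.pderiv j (MvPolynomial.pderiv i p) := by
  have h : ⁅(MvPolynomial.pderiv i : Derivation ℝ Poly Poly),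
      (MvPolynomial.pderiv j : Derivation ℝ Poly Poly)⁆ = 0 := by
    apply MvPolynomial.derivation_ext
    intro k
    rw [Derivation.commutator_apply]
    classical
    rw [MvPolynomial.pderiv_X, MvPolynomial.pderiv_X]
    simp only [Pi.single_apply]
    split_ifs <;> simp
  have h2 := congrArg (fun D : Derivation ℝ Poly Poly => D p) h
  simp only [Derivation.commutator_apply, Derivation.coe_zero, Pi.zero_apply] at h2
  exact sub_eq_zero.mp h2

/-- the first derivatives -/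
noncomputable def px (ψ : Poly) : Poly := MvPolynomial.pderiv 0 ψ
noncomputable def py (ψ : Poly) : Poly := MvPolynomial.pderiv 1 ψ
/-- the second derivatives -/
noncomputable def pxx (ψ : Poly) : Poly := MvPolynomial.pderiv 0 (MvPolynomial.pderiv 0 ψ)
noncomputable def pxy (ψ : Poly) : Poly := MvPolynomial.pderiv 1 (MvPolynomial.pderiv 0 ψ)
noncomputable def pyy (ψ : Poly) : Poly := MvPolynomial.pderiv 1 (MvPolynomial.pderiv 1 ψ)

/-- the trace of the square of the Hessian minus twice `s ^ 2` -/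
noncomputable def mt (s : ℝ) (ψ : Poly) : Poly :=
  pxx ψ ^ 2 + MvPolynomial.C 2 * pxy ψ ^ 2 + pyy ψ ^ 2 - MvPolynomial.C (2 * s ^ 2)

/-- the determinant of the square of the Hessian minus `s ^ 2` -/
noncomputable def md (s : ℝ) (ψ : Poly) : Poly :=
  (pxx ψ ^ 2 + pxy ψ ^ 2 - MvPolynomial.C (s ^ 2)) * (pxy ψ ^ 2 + pyy ψ ^ 2 - MvPolynomial.C (s ^ 2)) -
    pxy ψ ^ 2 * (pxx ψ + pyy ψ) ^ 2

lemma ev_mt (s : ℝ) (ψ : Poly) (z : ℝ × ℝ) : ev (mt s ψ) z =
    ev (pxx ψ) z ^ 2 + 2 * ev (pxy ψ) z ^ 2 + ev (pyy ψ) z ^ 2 - 2 * s ^ 2 := by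
  simp only [mt, ev_sub, ev_add, ev_mul, ev_pow, ev_C]

lemma ev_md (s : ℝ) (ψ : Poly) (z : ℝ × ℝ) : ev (md s ψ) z =
    (ev (pxx ψ) z ^ 2 + ev (pxy ψ) z ^ 2 - s ^ 2) * (ev (pxy ψ) z ^ 2 + ev (pyy ψ) z ^ 2 - s ^ 2) -
      ev (pxy ψ) z ^ 2 * (ev (pxx ψ) z + ev (pyy ψ) z) ^ 2 := by
  simp only [md, ev_sub, ev_add, ev_mul, ev_pow, ev_C]

/-- positive definiteness -/
lemma pd_form (a b c s : ℝ) (ht : 0 < a ^ 2 + 2 * b ^ 2 + c ^ 2 - 2 * s ^ 2)
    (hd : 0 < (a ^ 2 + b ^ 2 - s ^ 2) * (b ^ 2 + c ^ 2 - s ^ 2) - b ^ 2 * (a + c) ^ 2) (u v : ℝ) :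
    s ^ 2 * (u ^ 2 + v ^ 2) ≤ (a * u + b * v) ^ 2 + (b * u + c * v) ^ 2 := by
  set A := a ^ 2 + b ^ 2 - s ^ 2 with hA
  set B := b ^ 2 + c ^ 2 - s ^ 2 with hB
  have h1 : 0 < A + B := by rw [hA, hB]; linarith
  have h2 : 0 < A * B := by
    have : 0 ≤ b ^ 2 * (a + c) ^ 2 := by positivity
    linarith
  have hA0 : 0 < A := by
    by_contra hc
    push Not at hc
    have hB0 : 0 < B := by linarith
    nlinarith
  have h3 : 0 ≤ A * (A * u ^ 2 + 2 * (b * (a + c)) * u * v + B * v ^ 2) := by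
    have e : A * (A * u ^ 2 + 2 * (b * (a + c)) * u * v + B * v ^ 2) =
        (A * u + b * (a + c) * v) ^ 2 + (A * B - b ^ 2 * (a + c) ^ 2) * v ^ 2 := by ring
    rw [e]
    have : 0 ≤ (A * B - b ^ 2 * (a + c) ^ 2) * v ^ 2 := mul_nonneg hd.le (sq_nonneg v)
    have := sq_nonneg (A * u + b * (a + c) * v)
    linarith
  have h4 : 0 ≤ A * u ^ 2 + 2 * (b * (a + c)) * u * v + B * v ^ 2 :=
    nonneg_of_mul_nonneg_right h3 hA0
  have e2 : (a * u + b * v) ^ 2 + (b * u + c * v) ^ 2 - s ^ 2 * (u ^ 2 + v ^ 2) =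
      A * u ^ 2 + 2 * (b * (a + c)) * u * v + B * v ^ 2 := by rw [hA, hB]; ring
  linarith

section degrees

variable {D : ℕ} {ψ : Poly} (hψ : ψ.totalDegree ≤ D)
include hψ

lemma deg_px : (px ψ).totalDegree ≤ D := (deg_pderiv _ _).trans hψ
lemma deg_py : (py ψ).totalDegree ≤ D := (deg_pderiv _ _).trans hψ
lemma deg_pxx : (pxx ψ).totalDegree ≤ D := (deg_pderiv _ _).trans (deg_px hψ)
lemma deg_pxy : (pxy ψ).totalDegree ≤ D := (deg_pderiv _ _).trans (deg_px hψ)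
lemma deg_pyy : (pyy ψ).totalDegree ≤ D := (deg_pderiv _ _).trans (deg_py hψ)

end degrees

lemma deg_add {p q : Poly} {n : ℕ} (hp : p.totalDegree ≤ n) (hq : q.totalDegree ≤ n) :
    (p + q).totalDegree ≤ n := (MvPolynomial.totalDegree_add p q).trans (max_le hp hq)

lemma deg_sub {p q : Poly} {n : ℕ} (hp : p.totalDegree ≤ n) (hq : q.totalDegree ≤ n) :
    (p - q).totalDegree ≤ n := (MvPolynomial.totalDegree_sub p q).trans (max_le hp hq)

lemma deg_C (c : ℝ) (n : ℕ) : (MvPolynomial.C c : Poly).totalDegree ≤ n := by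
  rw [MvPolynomial.totalDegree_C]; exact Nat.zero_le n

lemma deg_mul {p q : Poly} {n m : ℕ} (hp : p.totalDegree ≤ n) (hq : q.totalDegree ≤ m) :
    (p * q).totalDegree ≤ n + m := (MvPolynomial.totalDegree_mul p q).trans (add_le_add hp hq)

lemma deg_sq {p : Poly} {n : ℕ} (hp : p.totalDegree ≤ n) : (p ^ 2).totalDegree ≤ 2 * n :=
  (MvPolynomial.totalDegree_pow p 2).trans (Nat.mul_le_mul_left 2 hp)

lemma deg_mt {D : ℕ} {ψ : Poly} (hψ : ψ.totalDegree ≤ D) (s : ℝ) :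
    (mt s ψ).totalDegree ≤ 2 * D := by
  unfold mt
  apply deg_sub _ (deg_C _ _)
  apply deg_add _ (deg_sq (deg_pyy hψ))
  apply deg_add (deg_sq (deg_pxx hψ))
  exact (deg_mul (deg_C 2 0) (deg_sq (deg_pxy hψ))).trans (by omega)

lemma deg_md {D : ℕ} {ψ : Poly} (hψ : ψ.totalDegree ≤ D) (s : ℝ) :
    (md s ψ).totalDegree ≤ 4 * D := by
  unfold md
  apply deg_sub
  · refine (deg_mul (n := 2 * D) (m := 2 * D) ?_ ?_).trans (by omega)
    · exact deg_sub (deg_add (deg_sq (deg_pxx hψ)) (deg_sq (deg_pxy hψ))) (deg_C _ _)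
    · exact deg_sub (deg_add (deg_sq (deg_pxy hψ)) (deg_sq (deg_pyy hψ))) (deg_C _ _)
  · exact (deg_mul (deg_sq (deg_pxy hψ)) (deg_sq (deg_add (deg_pxx hψ) (deg_pyy hψ)))).trans
      (by omega)

/-- the defining polynomials -/
noncomputable def rr (s lam : ℝ) (ψ : Poly) : Fin 8 → Poly :=
  ![MvPolynomial.C lam - px ψ, MvPolynomial.C lam + px ψ, MvPolynomial.C lam - py ψ,
    MvPolynomial.C lam + py ψ, MvPolynomial.C 1 - MvPolynomial.X 0,
    MvPolynomial.C 1 + MvPolynomial.X 0, mt s ψ, md s ψ]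

lemma deg_QQ {D : ℕ} {ψ : Poly} (hψ : ψ.totalDegree ≤ D) (s lam : ℝ) :
    (QQ (rr s lam ψ)).totalDegree ≤ 10 * D + 2 := by
  unfold QQ
  have hX : (MvPolynomial.X 0 : Poly).totalDegree ≤ 1 := by
    rw [MvPolynomial.totalDegree_X]
  rw [Fin.prod_univ_eight]
  have h := deg_mul (deg_mul (deg_mul (deg_mul (deg_mul (deg_mul (deg_mul
    (deg_sub (deg_C lam D) (deg_px hψ)) (deg_add (deg_C lam D) (deg_px hψ)))
    (deg_sub (deg_C lam D) (deg_py hψ))) (deg_add (deg_C lam D) (deg_py hψ)))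
    (deg_sub (deg_C 1 1) hX)) (deg_add (deg_C 1 1) hX)) (deg_mt hψ s)) (deg_md hψ s)
  refine le_trans (le_of_eq rfl) (h.trans ?_)
  omega

/-- the exceptional lines -/
def Pexc (s lam : ℝ) (ψ : Poly) : Set ℝ := {y | ∃ x : ℝ, |x| < 1 ∧ |ev (px ψ) (x, y)| < lam ∧
  |ev (py ψ) (x, y)| < lam ∧ 0 < ev (mt s ψ) (x, y) ∧ 0 < ev (md s ψ) (x, y)}

lemma mem_EE (s lam : ℝ) (ψ : Poly) (z : ℝ × ℝ) : z ∈ EE (rr s lam ψ) ↔
    |z.1| < 1 ∧ |ev (px ψ) z| < lam ∧ |ev (py ψ) z| < lam ∧ 0 < ev (mt s ψ) z ∧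
      0 < ev (md s ψ) z := by
  unfold EE
  simp only [mem_ofPred_eq]
  constructor
  · intro h
    have h0 := h 0
    have h1 := h 1
    have h2 := h 2
    have h3 := h 3
    have h4 := h 4
    have h5 := h 5
    have h6 := h 6
    have h7 := h 7
    simp only [rr, Matrix.cons_val, ev_sub, ev_add, ev_C, ev_X0] at h0 h1 h2 h3 h4 h5 h6 h7
    refine ⟨?_, ?_, ?_, h6, h7⟩ <;> rw [abs_lt] <;> constructor <;> linarith
  · rintro ⟨h1, h2, h3, h4, h5⟩
    rw [abs_lt] at h1 h2 h3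
    intro i
    fin_cases i
    · show 0 < ev (MvPolynomial.C lam - px ψ) z
      rw [ev_sub, ev_C]; linarith
    · show 0 < ev (MvPolynomial.C lam + px ψ) z
      rw [ev_add, ev_C]; linarith
    · show 0 < ev (MvPolynomial.C lam - py ψ) z
      rw [ev_sub, ev_C]; linarith
    · show 0 < ev (MvPolynomial.C lam + py ψ) z
      rw [ev_add, ev_C]; linarith
    · show 0 < ev (MvPolynomial.C 1 - MvPolynomial.X 0) z
      rw [ev_sub, ev_C, ev_X0]; linarith
    · show 0 < ev (MvPolynomial.C 1 + MvPolynomial.X 0) z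
      rw [ev_add, ev_C, ev_X0]; linarith
    · exact h4
    · exact h5

lemma Pexc_eq (s lam : ℝ) (ψ : Poly) : Pexc s lam ψ = {y | ∃ x : ℝ, (x, y) ∈ EE (rr s lam ψ)} := by
  ext y
  unfold Pexc
  simp only [mem_ofPred_eq, mem_EE]

lemma Pexc_open (s lam : ℝ) (ψ : Poly) : IsOpen (Pexc s lam ψ) := by
  rw [Pexc_eq]
  have : {y : ℝ | ∃ x : ℝ, (x, y) ∈ EE (rr s lam ψ)} = ⋃ x : ℝ, {y | (x, y) ∈ EE (rr s lam ψ)} := by
    ext y; simp
  rw [this]
  exact isOpen_iUnion fun x => (EE_open _).preimage (by fun_prop)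

/-- the constant -/
noncomputable def c1 (D : ℕ) : ℝ := 8 * NN (10 * D + 2)

/-- **measure of the exceptional lines** -/
lemma Pexc_vol {D : ℕ} {ψ : Poly} (hψ : ψ.totalDegree ≤ D) (s lam : ℝ) (hs : 0 < s) (hl : 0 < lam) :
    volume (Pexc s lam ψ) ≤ ENNReal.ofReal (c1 D * lam / s) := by
  rw [Pexc_eq]
  apply proj (rr s lam ψ) (px ψ) (py ψ) (10 * D + 2) (by omega) ((deg_px hψ).trans (by omega))
    ((deg_py hψ).trans (by omega)) (deg_QQ hψ s lam) s lam hs hl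
  intro z hz
  rw [mem_EE] at hz
  refine ⟨hz.1, hz.2.1, hz.2.2.1, fun u v => ?_⟩
  have h1 := hz.2.2.2.1
  have h2 := hz.2.2.2.2
  rw [ev_mt] at h1
  rw [ev_md] at h2
  have h3 := pd_form _ _ _ _ h1 h2 u v
  have e : MvPolynomial.pderiv 0 (py ψ) = pxy ψ := pd_comm 0 1 ψ
  rw [e]
  exact h3

/-- restriction of a polynomial to a line -/
lemma line (p : Poly) (y : ℝ) : ∃ f : Polynomial ℝ, f.natDegree ≤ p.totalDegree ∧
    ∀ x, f.eval x = ev p (x, y) := by
  refine ⟨MvPolynomial.aeval ![Polynomial.X, Polynomial.C y] p, ?_, ?_⟩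
  · have := MvPolynomial.aeval_natDegree_le (n := 1) p le_rfl
      ![Polynomial.X, Polynomial.C y] (fun l => by
        fin_cases l
        · simp
        · simp)
    simpa using this
  · intro x
    unfold ev
    induction p using MvPolynomial.induction_on with
    | C a => simp
    | add p q hp hq => simp only [map_add, Polynomial.eval_add, hp, hq]
    | mul_X p i hp =>
      simp only [map_mul, Polynomial.eval_mul, hp, MvPolynomial.aeval_X, MvPolynomial.eval_X]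
      congr 1
      fin_cases i <;> simp

/-- constant sign -/
def CS (F : ℝ → ℝ) (u v : ℝ) : Prop :=
  (∀ x ∈ Ioo u v, 0 < F x) ∨ (∀ x ∈ Ioo u v, F x = 0) ∨ (∀ x ∈ Ioo u v, F x < 0)

/-- cut points -/
lemma cuts {m : ℕ} (c : Fin m → Poly) (N : ℕ) (hN : ∑ j, (c j).totalDegree ≤ N) (y : ℝ) :
    ∃ Z : Finset ℝ, Z.card ≤ N ∧ ∀ u v : ℝ, (∀ z ∈ Z, z ∉ Ioo u v) →
      ∀ j, CS (fun x => ev (c j) (x, y)) u v := by
  classical
  choose f hf1 hf2 using fun j => line (c j) y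
  refine ⟨Finset.univ.biUnion fun j => (f j).roots.toFinset, ?_, ?_⟩
  · refine Finset.card_biUnion_le.trans (le_trans (Finset.sum_le_sum fun j _ => ?_) hN)
    exact (Multiset.toFinset_card_le _).trans ((Polynomial.card_roots' _).trans (hf1 j))
  · intro u v hZ j
    have e : (fun x => ev (c j) (x, y)) = fun x => (f j).eval x := by
      ext x; exact (hf2 j x).symm
    rw [e]
    by_cases h0 : f j = 0
    · right; left
      intro x _
      rw [h0]; simp
    · have hne : ∀ x ∈ Ioo u v, (f j).eval x ≠ 0 := by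
        intro x hx hx0
        apply hZ x _ hx
        rw [Finset.mem_biUnion]
        exact ⟨j, Finset.mem_univ j, Multiset.mem_toFinset.mpr
          ((Polynomial.mem_roots h0).mpr hx0)⟩
      by_contra hcon
      unfold CS at hcon
      push Not at hcon
      obtain ⟨⟨x1, hx1, h1⟩, -, ⟨x2, hx2, h2⟩⟩ := hcon
      have h1' : (f j).eval x1 < 0 := lt_of_le_of_ne h1 (hne x1 hx1)
      have h2' : 0 < (f j).eval x2 := lt_of_le_of_ne h2 (hne x2 hx2).symm
      have h3 : (0 : ℝ) ∈ (fun x => (f j).eval x) '' uIcc x1 x2 := by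
        apply intermediate_value_uIcc (f j).continuous.continuousOn
        rw [mem_uIcc]
        left
        exact ⟨h1'.le, h2'.le⟩
      obtain ⟨x, hx, hx0⟩ := h3
      refine hne x ?_ hx0
      have h5 : uIcc x1 x2 ⊆ Ioo u v := by
        intro w hw
        rw [mem_uIcc] at hw
        rcases hw with hw | hw
        · exact ⟨lt_of_lt_of_le hx1.1 hw.1, lt_of_le_of_lt hw.2 hx2.2⟩
        · exact ⟨lt_of_lt_of_le hx2.1 hw.1, lt_of_le_of_lt hw.2 hx1.2⟩
      exact h5 hx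

end Pool.Agent.Y183.PP
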