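import Pool.Agent.Y183.PP.D
set_option autoImplicit false

/-! The estimate for the part of the square where the first derivative in `x` dominates. -/

namespace Pool.Agent.Y183.PP

open MeasureTheory Set Filter Topology Complex
open scoped ENNReal NNReal

/-- the region where the smallest singular value of the Hessian is between `s` and `s'` -/
def Reg (s s' : ℝ) (ψ : Poly) : Set (ℝ × ℝ) :=
  {z | (0 < ev (mt s ψ) z ∧ 0 < ev (md s ψ) z) ∧ ¬ (0 < ev (mt s' ψ) z ∧ 0 < ev (md s' ψ) z)}

/-- the derivative in `x` dominates -/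
def HF (b : Bool) (ψ : Poly) : Set (ℝ × ℝ) :=
  {z | if b then 0 < ev (px ψ - py ψ) z * ev (px ψ + py ψ) z else
    0 ≤ ev (px ψ - py ψ) z * ev (px ψ + py ψ) z}

lemma HF_abs (b : Bool) (ψ : Poly) (z : ℝ × ℝ) (hz : z ∈ HF b ψ) :
    |ev (py ψ) z| ≤ |ev (px ψ) z| := by
  have h : 0 ≤ ev (px ψ - py ψ) z * ev (px ψ + py ψ) z := by
    unfold HF at hz
    simp only [mem_ofPred_eq] at hz
    split_ifs at hz
    · exact hz.le
    · exact hz
  rw [ev_sub, ev_add] at h
  apply sq_le_sq.mp
  nlinarith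

lemma Reg_meas (s s' : ℝ) (ψ : Poly) : MeasurableSet (Reg s s' ψ) := by
  have h : ∀ p : Poly, MeasurableSet {z | 0 < ev p z} := fun p =>
    (isOpen_lt continuous_const (ev_cont p)).measurableSet
  exact ((h _).inter (h _)).inter ((h _).inter (h _)).compl

lemma HF_meas (b : Bool) (ψ : Poly) : MeasurableSet (HF b ψ) := by
  unfold HF
  cases b
  · simp only [Bool.false_eq_true, if_false]
    exact (isClosed_le continuous_const ((ev_cont _).mul (ev_cont _))).measurableSet
  · simp only [if_true]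
    exact (isOpen_lt continuous_const ((ev_cont _).mul (ev_cont _))).measurableSet

/-- membership is constant between cut points -/
lemma const_mem (s s' : ℝ) (b : Bool) (ψ : Poly) (y u v : ℝ)
    (h : ∀ p ∈ [mt s ψ, md s ψ, mt s' ψ, md s' ψ, px ψ - py ψ, px ψ + py ψ],
      CS (fun x => ev p (x, y)) u v) :
    (∀ x ∈ Ioo u v, (x, y) ∈ Reg s s' ψ ∩ HF b ψ) ∨ (∀ x ∈ Ioo u v, (x, y) ∉ Reg s s' ψ ∩ HF b ψ) := by
  -- positivity is constant
  have hpos : ∀ p : Poly, CS (fun x => ev p (x, y)) u v →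
      (∀ x ∈ Ioo u v, 0 < ev p (x, y)) ∨ (∀ x ∈ Ioo u v, ¬ 0 < ev p (x, y)) := by
    intro p hp
    rcases hp with hp | hp | hp
    · exact Or.inl hp
    · right
      intro x hx
      simp only [hp x hx, lt_irrefl, not_false_eq_true]
    · right
      intro x hx
      exact not_lt.mpr (hp x hx).le
  have hHF : (∀ x ∈ Ioo u v, (x, y) ∈ HF b ψ) ∨ (∀ x ∈ Ioo u v, (x, y) ∉ HF b ψ) := by
    have h5 := h (px ψ - py ψ) (by simp)
    have h6 := h (px ψ + py ψ) (by simp)
    unfold HF
    cases b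
    · simp only [Bool.false_eq_true, if_false, mem_ofPred_eq, not_le]
      rcases h5 with h5 | h5 | h5 <;> rcases h6 with h6 | h6 | h6
      · left; intro x hx; exact (mul_pos (h5 x hx) (h6 x hx)).le
      · left; intro x hx; simp only [h6 x hx, mul_zero, le_refl]
      · right; intro x hx; exact mul_neg_of_pos_of_neg (h5 x hx) (h6 x hx)
      · left; intro x hx; simp only [h5 x hx, zero_mul, le_refl]
      · left; intro x hx; simp only [h5 x hx, zero_mul, le_refl]
      · left; intro x hx; simp only [h5 x hx, zero_mul, le_refl]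
      · right; intro x hx; exact mul_neg_of_neg_of_pos (h5 x hx) (h6 x hx)
      · left; intro x hx; simp only [h6 x hx, mul_zero, le_refl]
      · left; intro x hx; exact (mul_pos_of_neg_of_neg (h5 x hx) (h6 x hx)).le
    · simp only [if_true, mem_ofPred_eq, not_lt]
      rcases h5 with h5 | h5 | h5 <;> rcases h6 with h6 | h6 | h6
      · left; intro x hx; exact mul_pos (h5 x hx) (h6 x hx)
      · right; intro x hx; simp only [h6 x hx, mul_zero, le_refl]
      · right; intro x hx; exact (mul_neg_of_pos_of_neg (h5 x hx) (h6 x hx)).le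
      · right; intro x hx; simp only [h5 x hx, zero_mul, le_refl]
      · right; intro x hx; simp only [h5 x hx, zero_mul, le_refl]
      · right; intro x hx; simp only [h5 x hx, zero_mul, le_refl]
      · right; intro x hx; exact (mul_neg_of_neg_of_pos (h5 x hx) (h6 x hx)).le
      · right; intro x hx; simp only [h6 x hx, mul_zero, le_refl]
      · left; intro x hx; exact mul_pos_of_neg_of_neg (h5 x hx) (h6 x hx)
  rcases hHF with hH | hH
  swap
  · right; intro x hx hm; exact hH x hx hm.2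
  rcases hpos _ (h (mt s ψ) (by simp)) with h1 | h1
  swap
  · right; intro x hx hm; exact h1 x hx hm.1.1.1
  rcases hpos _ (h (md s ψ) (by simp)) with h2 | h2
  swap
  · right; intro x hx hm; exact h2 x hx hm.1.1.2
  rcases hpos _ (h (mt s' ψ) (by simp)) with h3 | h3
  swap
  · left; intro x hx; exact ⟨⟨⟨h1 x hx, h2 x hx⟩, fun h => h3 x hx h.1⟩, hH x hx⟩
  rcases hpos _ (h (md s' ψ) (by simp)) with h4 | h4
  swap
  · left; intro x hx; exact ⟨⟨⟨h1 x hx, h2 x hx⟩, fun h => h4 x hx h.2⟩, hH x hx⟩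
  · right; intro x hx hm; exact hm.1.2 ⟨h3 x hx, h4 x hx⟩

/-- the exponential -/
noncomputable def ex (ψ : Poly) (z : ℝ × ℝ) : ℂ := cexp ((ev ψ z : ℂ) * I)

lemma ex_norm (ψ : Poly) (z : ℝ × ℝ) : ‖ex ψ z‖ = 1 := Complex.norm_exp_ofReal_mul_I _

lemma ex_cont (ψ : Poly) : Continuous (ex ψ) :=
  Complex.continuous_exp.comp ((continuous_ofReal.comp (ev_cont ψ)).mul continuous_const)

lemma closed_ext {u v : ℝ} (huv : u < v) (S : Set ℝ) (hS : IsClosed S) (h : Ioo u v ⊆ S) :
    Icc u v ⊆ S := by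
  rw [← closure_Ioo huv.ne]
  exact closure_minimal h hS

/-- **the estimate on a line** -/
lemma line_est {D : ℕ} {ψ : Poly} (hψ : ψ.totalDegree ≤ D) (s s' lam : ℝ) (hl : 0 < lam)
    (b : Bool) (g : ℝ → ℂ) (hg : Measurable g) (V : ℝ) (hV : 0 ≤ V) (hgB : ∀ x, ‖g x‖ ≤ V)
    (hvar : eVariationOn g (Icc (-1) 1) ≤ ENNReal.ofReal V) (y : ℝ) (hy : y ∉ Pexc s lam ψ) :
    ‖∫ x in (-1 : ℝ)..1, (Reg s s' ψ ∩ HF b ψ).indicator (fun z => g z.1 * ex ψ z) (x, y)‖ ≤
      (15 * D + 1) * ((3 / lam) * (2 * V)) := by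
  set R := Reg s s' ψ ∩ HF b ψ with hR
  have hRm : MeasurableSet R := (Reg_meas s s' ψ).inter (HF_meas b ψ)
  obtain ⟨Z, hZc, hZ⟩ := cuts ![mt s ψ, md s ψ, mt s' ψ, md s' ψ, px ψ - py ψ, px ψ + py ψ, pxx ψ]
    (15 * D) (by
      rw [Fin.sum_univ_seven]
      have h1 := deg_mt hψ s
      have h2 := deg_md hψ s
      have h3 := deg_mt hψ s'
      have h4 := deg_md hψ s'
      have h5 := deg_sub (deg_px hψ) (deg_py hψ)
      have h6 := deg_add (deg_px hψ) (deg_py hψ)
      have h7 := deg_pxx hψ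
      simp only [Matrix.cons_val]
      omega) y
  have hmeas : Measurable fun x : ℝ => R.indicator (fun z => g z.1 * ex ψ z) (x, y) := by
    have h1 : Measurable (R.indicator (fun z : ℝ × ℝ => g z.1 * ex ψ z)) :=
      ((hg.comp measurable_fst).mul (ex_cont ψ).measurable).indicator hRm
    exact h1.comp (by fun_prop)
  have hbd : ∀ z : ℝ × ℝ, ‖R.indicator (fun z => g z.1 * ex ψ z) z‖ ≤ V := by
    intro z
    by_cases h : z ∈ R
    · rw [indicator_of_mem h, norm_mul, ex_norm, mul_one]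
      exact hgB _
    · rw [indicator_of_notMem h, norm_zero]
      exact hV
  have hint : ∀ c d : ℝ, IntervalIntegrable (fun x : ℝ => R.indicator (fun z => g z.1 * ex ψ z) (x, y))
      volume c d := by
    intro c d
    rw [intervalIntegrable_iff]
    exact Measure.integrableOn_of_bounded (M := V) (by simp) hmeas.aestronglyMeasurable
      (ae_of_all _ fun x => hbd _)
  have key := gaps (fun x : ℝ => R.indicator (fun z => g z.1 * ex ψ z) (x, y))
    ((3 / lam) * (2 * V)) (by positivity) (15 * D) Z hZc (-1) 1 (by norm_num) (hint _ _) ?_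
  · simpa using key
  intro u v hu huv hv hZu
  rcases eq_or_lt_of_le huv with heq | hlt
  · rw [heq, intervalIntegral.integral_same, norm_zero]
    positivity
  have hcs := hZ u v hZu
  have hconst := const_mem s s' b ψ y u v (by
    intro p hp
    simp only [List.mem_cons, List.not_mem_nil, or_false] at hp
    rcases hp with rfl | rfl | rfl | rfl | rfl | rfl
    · exact hcs 0
    · exact hcs 1
    · exact hcs 2
    · exact hcs 3
    · exact hcs 4
    · exact hcs 5)
  rcases hconst with hin | hout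
  swap
  · have e : ∫ x in u..v, R.indicator (fun z => g z.1 * ex ψ z) (x, y) = 0 := by
      rw [intervalIntegral.integral_of_le huv, integral_Ioc_eq_integral_Ioo]
      rw [setIntegral_congr_fun (g := fun _ => (0 : ℂ)) measurableSet_Ioo]
      · simp
      · intro x hx
        exact indicator_of_notMem (hout x hx) _
    rw [e, norm_zero]
    positivity
  have e : ∫ x in u..v, R.indicator (fun z => g z.1 * ex ψ z) (x, y) =
      ∫ x in u..v, g x * ex ψ (x, y) := by
    rw [intervalIntegral.integral_of_le huv, integral_Ioc_eq_integral_Ioo,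
      intervalIntegral.integral_of_le huv, integral_Ioc_eq_integral_Ioo]
    apply setIntegral_congr_fun measurableSet_Ioo
    intro x hx
    exact indicator_of_mem (hin x hx) _
  rw [e]
  have hcl : ∀ p : Poly, Continuous fun x : ℝ => ev p (x, y) := fun p =>
    (ev_cont p).comp (by fun_prop)
  -- lower bound of the derivative
  have hlow : ∀ x ∈ Icc u v, lam ≤ |ev (px ψ) (x, y)| := by
    apply closed_ext hlt {x | lam ≤ |ev (px ψ) (x, y)|}
      (isClosed_le continuous_const (hcl _).abs)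
    intro x hx
    have hm := hin x hx
    by_contra hc
    simp only [mem_ofPred_eq, not_le] at hc
    apply hy
    refine ⟨x, ?_, hc, lt_of_le_of_lt (HF_abs b ψ _ hm.2) hc, hm.1.1.1, hm.1.1.2⟩
    rw [abs_lt]
    constructor
    · linarith [hx.1]
    · linarith [hx.2]
  -- sign of the second derivative
  have hsg : (∀ x ∈ Icc u v, 0 ≤ ev (pxx ψ) (x, y)) ∨ (∀ x ∈ Icc u v, ev (pxx ψ) (x, y) ≤ 0) := by
    rcases hcs 6 with h | h | h
    · left
      exact closed_ext hlt {x | 0 ≤ ev (pxx ψ) (x, y)} (isClosed_le continuous_const (hcl _))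
        fun x hx => (h x hx).le
    · left
      exact closed_ext hlt {x | 0 ≤ ev (pxx ψ) (x, y)} (isClosed_le continuous_const (hcl _))
        fun x hx => (h x hx).ge
    · right
      exact closed_ext hlt {x | ev (pxx ψ) (x, y) ≤ 0} (isClosed_le (hcl _) continuous_const)
        fun x hx => (h x hx).le
  have hbv := bv_amp g (fun x => ex ψ (x, y)) hg ((ex_cont ψ).comp (by fun_prop))
    (fun x => (ex_norm ψ _).le) u v huv (3 / lam) V V (by positivity) hV (fun x _ => hgB x)
    (le_trans (eVariationOn.mono _ (Icc_subset_Icc hu hv)) hvar) (by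
      intro x hx
      apply vdc (fun x => ev ψ (x, y)) (fun x => ev (px ψ) (x, y)) (fun x => ev (pxx ψ) (x, y))
        (fun x => ev_deriv1 ψ x y) (fun x => ev_deriv1 (px ψ) x y) (hcl _) u x hx.1 lam hl
      · intro t ht
        exact hlow t ⟨ht.1, ht.2.trans hx.2⟩
      · rcases hsg with h | h
        · left; intro t ht; exact h t ⟨ht.1, ht.2.trans hx.2⟩
        · right; intro t ht; exact h t ⟨ht.1, ht.2.trans hx.2⟩)
  rw [two_mul]
  exact hbv

/-- a telescoping bound -/
lemma tele (v B : ℝ≥0∞) (K : ℕ → ℝ≥0∞) (P : ℕ → Prop) [DecidablePred P] (hB : v ≤ B)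
    (h : ∀ k, ¬ P k → v ≤ K k) (j : ℕ) :
    v ≤ (if P 0 then B else 0) + ∑ k ∈ Finset.range j, (if P (k + 1) then K k else 0) + K j := by
  induction j with
  | zero =>
    simp only [Finset.range_zero, Finset.sum_empty, add_zero]
    by_cases h0 : P 0
    · rw [if_pos h0]
      exact hB.trans le_self_add
    · rw [if_neg h0, zero_add]
      exact h 0 h0
  | succ j ih =>
    by_cases h1 : P (j + 1)
    · refine ih.trans ?_
      rw [Finset.sum_range_succ, if_pos h1, ← add_assoc]
      exact le_self_add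
    · exact (h _ h1).trans le_add_self

/-- the constant -/
noncomputable def c2 (D : ℕ) : ℝ := 2 * c1 D + 12 * (15 * D + 1) * c1 D + 12 * (15 * D + 1)

lemma c1_nonneg (D : ℕ) : 0 ≤ c1 D := by unfold c1; positivity

lemma c2_nonneg (D : ℕ) : 0 ≤ c2 D := by
  have := c1_nonneg D
  unfold c2
  positivity

/-- the square -/
def SQ : Set (ℝ × ℝ) := Icc (-1 : ℝ) 1 ×ˢ Icc (-1 : ℝ) 1

lemma SQ_meas : MeasurableSet SQ := measurableSet_Icc.prod measurableSet_Icc

/-- **half of the sup bound** -/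
lemma half {D : ℕ} {ψ : Poly} (hψ : ψ.totalDegree ≤ D) (j : ℕ) (s' : ℝ)
    (b : Bool) (g : ℝ × ℝ → ℂ) (hg : Measurable g) (V : ℝ) (hV : 0 ≤ V) (hgB : ∀ z, ‖g z‖ ≤ V)
    (hvar : ∀ y, eVariationOn (fun x => g (x, y)) (Icc (-1) 1) ≤ ENNReal.ofReal V) :
    ‖∫ z in SQ, (Reg (2 ^ j) s' ψ ∩ HF b ψ).indicator (fun z => g z * ex ψ z) z‖ₑ ≤
      ENNReal.ofReal (c2 D * V * (1 + j) / 2 ^ j) := by
  set s : ℝ := 2 ^ j with hs
  have hs0 : 0 < s := by rw [hs]; positivity
  set R := Reg s s' ψ ∩ HF b ψ with hR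
  have hRm : MeasurableSet R := (Reg_meas s s' ψ).inter (HF_meas b ψ)
  set F : ℝ × ℝ → ℂ := R.indicator (fun z => g z * ex ψ z) with hF
  have hFm : Measurable F := (hg.mul (ex_cont ψ).measurable).indicator hRm
  have hFb : ∀ z, ‖F z‖ ≤ V := by
    intro z
    by_cases h : z ∈ R
    · simp only [hF]
      rw [indicator_of_mem h, norm_mul, ex_norm, mul_one]
      exact hgB _
    · simp only [hF]
      rw [indicator_of_notMem h, norm_zero]
      exact hV
  have hvolIcc : (volume : Measure ℝ).restrict (Icc (-1) 1) univ = 2 := by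
    rw [Measure.restrict_apply_univ, Real.volume_Icc]
    norm_num
  have hres : (volume : Measure (ℝ × ℝ)).restrict SQ =
      (volume.restrict (Icc (-1 : ℝ) 1)).prod (volume.restrict (Icc (-1 : ℝ) 1)) := by
    rw [Measure.prod_restrict, ← Measure.volume_eq_prod]
    rfl
  have hFi : Integrable F ((volume.restrict (Icc (-1 : ℝ) 1)).prod
      (volume.restrict (Icc (-1 : ℝ) 1))) :=
    Integrable.of_bound hFm.aestronglyMeasurable V (ae_of_all _ hFb)
  rw [hres, integral_prod_symm _ hFi]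
  refine (enorm_integral_le_lintegral_enorm _).trans ?_
  set K : ℝ := (15 * D + 1) * (3 * (2 * V)) with hK
  have hK0 : 0 ≤ K := by rw [hK]; positivity
  classical
  have hpt : ∀ y : ℝ, ‖∫ x in Icc (-1 : ℝ) 1, F (x, y)‖ₑ ≤
      (if y ∈ Pexc s (2 ^ 0) ψ then ENNReal.ofReal (2 * V) else 0) +
      ∑ k ∈ Finset.range j, (if y ∈ Pexc s (2 ^ (k + 1)) ψ then ENNReal.ofReal (K / 2 ^ k) else 0) +
      ENNReal.ofReal (K / 2 ^ j) := by
    intro y
    refine tele _ _ (fun k => ENNReal.ofReal (K / 2 ^ k)) (fun k => y ∈ Pexc s (2 ^ k) ψ) ?_ ?_ j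
    · have h1 : ‖∫ x in Icc (-1 : ℝ) 1, F (x, y)‖ ≤ V * (volume.restrict (Icc (-1 : ℝ) 1)).real univ :=
        norm_integral_le_of_norm_le_const (ae_of_all _ fun x => hFb (x, y))
      rw [← ofReal_norm]
      apply ENNReal.ofReal_le_ofReal
      refine h1.trans (le_of_eq ?_)
      rw [Measure.real, hvolIcc]
      simp
      ring
    · intro k hk
      have h1 := line_est hψ s s' (2 ^ k) (by positivity) b (fun x => g (x, y))
        (hg.comp (by fun_prop)) V hV (fun x => hgB _) (hvar y) y hk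
      rw [← ofReal_norm]
      apply ENNReal.ofReal_le_ofReal
      have e1 : ∫ x in Icc (-1 : ℝ) 1, F (x, y) = ∫ x in (-1 : ℝ)..1,
          (Reg s s' ψ ∩ HF b ψ).indicator (fun z => g (z.1, y) * ex ψ z) (x, y) := by
        rw [intervalIntegral.integral_of_le (by norm_num), integral_Icc_eq_integral_Ioc]
        congr 1
      rw [e1]
      refine h1.trans (le_of_eq ?_)
      rw [hK]
      ring
  refine (lintegral_mono hpt).trans ?_
  have hme : ∀ k : ℕ, ∀ c : ℝ≥0∞, Measurable fun y => if y ∈ Pexc s (2 ^ k) ψ then c else 0 :=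
    fun k c => Measurable.ite (Pexc_open s _ ψ).measurableSet measurable_const measurable_const
  have hin : ∀ k : ℕ, ∀ c : ℝ, 0 ≤ c → ∫⁻ y in Icc (-1 : ℝ) 1,
      (if y ∈ Pexc s (2 ^ k) ψ then ENNReal.ofReal c else 0) ≤
      ENNReal.ofReal (c * (c1 D * 2 ^ k / s)) := by
    intro k c hc
    have e1 : (fun y => if y ∈ Pexc s (2 ^ k) ψ then ENNReal.ofReal c else 0) =
        (Pexc s (2 ^ k) ψ).indicator fun _ => ENNReal.ofReal c := by
      ext y
      rw [indicator_apply]
    rw [e1]
    calc ∫⁻ y in Icc (-1 : ℝ) 1, (Pexc s (2 ^ k) ψ).indicator (fun _ => ENNReal.ofReal c) y ≤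
        ∫⁻ y, (Pexc s (2 ^ k) ψ).indicator (fun _ => ENNReal.ofReal c) y :=
          lintegral_mono' Measure.restrict_le_self le_rfl
      _ = ENNReal.ofReal c * volume (Pexc s (2 ^ k) ψ) :=
          lintegral_indicator_const (Pexc_open s _ ψ).measurableSet _
      _ ≤ ENNReal.ofReal c * ENNReal.ofReal (c1 D * 2 ^ k / s) := by
          gcongr
          exact Pexc_vol hψ s (2 ^ k) hs0 (by positivity)
      _ = _ := by rw [← ENNReal.ofReal_mul hc]
  rw [lintegral_add_right _ measurable_const, lintegral_add_left (hme 0 _),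
    lintegral_finsetSum _ (fun k _ => hme (k + 1) _)]
  have i0 := hin 0 (2 * V) (by positivity)
  have ik : ∑ k ∈ Finset.range j, ∫⁻ y in Icc (-1 : ℝ) 1,
      (if y ∈ Pexc s (2 ^ (k + 1)) ψ then ENNReal.ofReal (K / 2 ^ k) else 0) ≤
      ENNReal.ofReal (j * (2 * K * c1 D / s)) := by
    refine (Finset.sum_le_sum fun k _ => hin (k + 1) (K / 2 ^ k) (by positivity)).trans ?_
    have e1 : ∀ k ∈ Finset.range j, ENNReal.ofReal (K / 2 ^ k * (c1 D * 2 ^ (k + 1) / s)) =
        ENNReal.ofReal (2 * K * c1 D / s) := by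
      intro k _
      congr 1
      rw [pow_succ]
      field_simp
    rw [Finset.sum_congr rfl e1, Finset.sum_const, Finset.card_range, nsmul_eq_mul,
      ← ENNReal.ofReal_natCast, ← ENNReal.ofReal_mul (by positivity)]
  have il : ∫⁻ _y in Icc (-1 : ℝ) 1, ENNReal.ofReal (K / 2 ^ j) = ENNReal.ofReal (2 * K / s) := by
    rw [lintegral_const, hvolIcc, show (2 : ℝ≥0∞) = ENNReal.ofReal 2 by norm_num,
      ← ENNReal.ofReal_mul (by positivity)]
    congr 1
    rw [hs]
    ring
  rw [il]
  refine (add_le_add (add_le_add i0 ik) le_rfl).trans ?_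
  have hc1 := c1_nonneg D
  rw [← ENNReal.ofReal_add (by positivity) (by positivity), ← ENNReal.ofReal_add (by positivity)
    (by positivity)]
  apply ENNReal.ofReal_le_ofReal
  have e2 : 2 * V * (c1 D * 2 ^ 0 / s) + j * (2 * K * c1 D / s) + 2 * K / s =
      (2 * V * c1 D + j * (2 * K * c1 D) + 2 * K) / s := by
    rw [pow_zero]
    ring
  rw [e2]
  gcongr
  rw [hK]
  unfold c2
  have hj : (0 : ℝ) ≤ j := Nat.cast_nonneg j
  have hD : (0 : ℝ) ≤ D := Nat.cast_nonneg D
  have t1 : 0 ≤ 2 * c1 D * V * j := by positivity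
  have t2 : 0 ≤ 12 * (15 * D + 1) * c1 D * V := by positivity
  have t3 : 0 ≤ 12 * (15 * D + 1) * V * j := by positivity
  nlinarith

end Pool.Agent.Y183.PP
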