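import Pool.Agent.Y183.PP.E
set_option autoImplicit false

/-! The sup bound and the phases of the extension operator. -/

namespace Pool.Agent.Y183.PP

open MeasureTheory Set Filter Topology Complex
open scoped ENNReal NNReal

/-- exchange of the variables -/
noncomputable def sw (p : Poly) : Poly := MvPolynomial.rename (Equiv.swap (0 : Fin 2) 1) p

lemma ev_sw (p : Poly) (z : ℝ × ℝ) : ev (sw p) z = ev p z.swap := by
  unfold ev sw
  have e : (![z.1, z.2] ∘ Equiv.swap (0 : Fin 2) 1) = ![z.swap.1, z.swap.2] := by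
    ext i
    fin_cases i <;> simp
  rw [MvPolynomial.eval_rename, e]

lemma deg_sw {p : Poly} {n : ℕ} (hp : p.totalDegree ≤ n) : (sw p).totalDegree ≤ n :=
  (MvPolynomial.totalDegree_rename_le _ _).trans hp

lemma pd0_sw (p : Poly) : MvPolynomial.pderiv 0 (sw p) = sw (MvPolynomial.pderiv 1 p) := by
  have h := MvPolynomial.pderiv_rename (R := ℝ) (f := Equiv.swap (0 : Fin 2) 1)
    (Equiv.injective _) (x := 1) p
  rw [Equiv.swap_apply_right] at h
  exact h

lemma pd1_sw (p : Poly) : MvPolynomial.pderiv 1 (sw p) = sw (MvPolynomial.pderiv 0 p) := by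
  have h := MvPolynomial.pderiv_rename (R := ℝ) (f := Equiv.swap (0 : Fin 2) 1)
    (Equiv.injective _) (x := 0) p
  rw [Equiv.swap_apply_left] at h
  exact h

lemma px_sw (ψ : Poly) : px (sw ψ) = sw (py ψ) := pd0_sw ψ
lemma py_sw (ψ : Poly) : py (sw ψ) = sw (px ψ) := pd1_sw ψ
lemma pxx_sw (ψ : Poly) : pxx (sw ψ) = sw (pyy ψ) := by
  unfold pxx pyy; rw [pd0_sw, pd0_sw]
lemma pyy_sw (ψ : Poly) : pyy (sw ψ) = sw (pxx ψ) := by
  unfold pxx pyy; rw [pd1_sw, pd1_sw]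
lemma pxy_sw (ψ : Poly) : pxy (sw ψ) = sw (pxy ψ) := by
  unfold pxy; rw [pd0_sw, pd1_sw, pd_comm]

lemma ev_mt_sw (s : ℝ) (ψ : Poly) (z : ℝ × ℝ) : ev (mt s (sw ψ)) z = ev (mt s ψ) z.swap := by
  rw [ev_mt, ev_mt, pxx_sw, pyy_sw, pxy_sw, ev_sw, ev_sw, ev_sw]
  ring

lemma ev_md_sw (s : ℝ) (ψ : Poly) (z : ℝ × ℝ) : ev (md s (sw ψ)) z = ev (md s ψ) z.swap := by
  rw [ev_md, ev_md, pxx_sw, pyy_sw, pxy_sw, ev_sw, ev_sw, ev_sw]
  ring

/-- **the sup bound** -/
theorem supb {D : ℕ} {ψ : Poly} (hψ : ψ.totalDegree ≤ D) (j : ℕ) (s' : ℝ)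
    (g : ℝ × ℝ → ℂ) (hg : Measurable g) (V : ℝ) (hV : 0 ≤ V) (hgB : ∀ z, ‖g z‖ ≤ V)
    (hvar : ∀ y, eVariationOn (fun x => g (x, y)) (Icc (-1) 1) ≤ ENNReal.ofReal V)
    (hvar' : ∀ x, eVariationOn (fun y => g (x, y)) (Icc (-1) 1) ≤ ENNReal.ofReal V) :
    ‖∫ z in SQ, (Reg (2 ^ j) s' ψ).indicator (fun z => g z * ex ψ z) z‖ₑ ≤
      ENNReal.ofReal (2 * (c2 D * V * (1 + j) / 2 ^ j)) := by
  set R := Reg (2 ^ j) s' ψ with hR
  have hRm : MeasurableSet R := Reg_meas _ _ ψ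
  have h1 := half hψ j s' false g hg V hV hgB hvar
  have h2 := half (deg_sw hψ) j s' true (fun z => g z.swap) (hg.comp measurable_swap) V hV
    (fun z => hgB _) (fun y => hvar' y)
  rw [← hR] at h1
  set S2 : Set (ℝ × ℝ) := R \ HF false ψ with hS2
  have hS2m : MeasurableSet S2 := hRm.diff (HF_meas false ψ)
  have hgm : Measurable (fun z => g z * ex ψ z) := hg.mul (ex_cont ψ).measurable
  have hbd : ∀ (S : Set (ℝ × ℝ)) z, ‖S.indicator (fun z => g z * ex ψ z) z‖ ≤ V := by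
    intro S z
    by_cases h : z ∈ S
    · rw [indicator_of_mem h, norm_mul, ex_norm, mul_one]
      exact hgB _
    · rw [indicator_of_notMem h, norm_zero]
      exact hV
  have hfin : volume SQ ≠ ∞ := by
    unfold SQ
    rw [Measure.volume_eq_prod, Measure.prod_prod, Real.volume_Icc]
    exact ENNReal.mul_ne_top ENNReal.ofReal_ne_top ENNReal.ofReal_ne_top
  have hint : ∀ S : Set (ℝ × ℝ), MeasurableSet S →
      IntegrableOn (S.indicator (fun z => g z * ex ψ z)) SQ := by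
    intro S hS
    exact Measure.integrableOn_of_bounded (M := V) hfin (hgm.indicator hS).aestronglyMeasurable
      (ae_of_all _ fun z => hbd S z)
  have e1 : ∫ z in SQ, R.indicator (fun z => g z * ex ψ z) z =
      (∫ z in SQ, (R ∩ HF false ψ).indicator (fun z => g z * ex ψ z) z) +
      ∫ z in SQ, S2.indicator (fun z => g z * ex ψ z) z := by
    rw [← integral_add (hint _ (hRm.inter (HF_meas false ψ))) (hint _ hS2m)]
    congr 1
    ext z
    simp only [hS2]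
    by_cases hz : z ∈ R
    · by_cases hz2 : z ∈ HF false ψ
      · rw [indicator_of_mem hz, indicator_of_mem (show z ∈ R ∩ HF false ψ from ⟨hz, hz2⟩),
          indicator_of_notMem (fun h => h.2 hz2), add_zero]
      · rw [indicator_of_mem hz, indicator_of_notMem (fun h => hz2 h.2),
          indicator_of_mem (show z ∈ R \ HF false ψ from ⟨hz, hz2⟩), zero_add]
    · rw [indicator_of_notMem hz, indicator_of_notMem (fun h => hz h.1),
        indicator_of_notMem (fun h => hz h.1), add_zero]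
  -- the second part
  have e2 : ∫ z in SQ, S2.indicator (fun z => g z * ex ψ z) z =
      ∫ z in SQ, (Reg (2 ^ j) s' (sw ψ) ∩ HF true (sw ψ)).indicator
        (fun z => g z.swap * ex (sw ψ) z) z := by
    have hmp : MeasurePreserving (Prod.swap : ℝ × ℝ → ℝ × ℝ) volume volume :=
      Measure.measurePreserving_swap
    have h3 := hmp.setIntegral_preimage_emb (MeasurableEquiv.prodComm (α := ℝ)
      (β := ℝ)).measurableEmbedding (fun z => S2.indicator (fun z => g z * ex ψ z) z) SQ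
    have hpre : Prod.swap ⁻¹' SQ = SQ := by
      ext z
      unfold SQ
      simp only [mem_preimage, mem_prod, Prod.fst_swap, Prod.snd_swap]
      exact and_comm
    rw [hpre] at h3
    rw [← h3]
    congr 1
    ext z
    have hmem : z.swap ∈ S2 ↔ z ∈ Reg (2 ^ j) s' (sw ψ) ∩ HF true (sw ψ) := by
      simp only [hS2, hR, Reg, HF, Set.mem_sdiff, mem_inter_iff, mem_ofPred_eq, ev_mt_sw, ev_md_sw,
        px_sw, py_sw, ev_sub, ev_add, ev_sw, Bool.false_eq_true, if_false, if_true, not_le]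
      constructor
      · rintro ⟨h4, h5⟩
        exact ⟨h4, by linarith⟩
      · rintro ⟨h4, h5⟩
        exact ⟨h4, by linarith⟩
    have hexs : ex (sw ψ) z = ex ψ z.swap := by
      unfold ex
      rw [ev_sw]
    by_cases hz : z.swap ∈ S2
    · rw [indicator_of_mem hz, indicator_of_mem (hmem.mp hz), hexs]
    · rw [indicator_of_notMem hz, indicator_of_notMem (fun h => hz (hmem.mpr h))]
  rw [e1, e2]
  have hc := c2_nonneg D
  calc _ ≤ ENNReal.ofReal (c2 D * V * (1 + j) / 2 ^ j) +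
        ENNReal.ofReal (c2 D * V * (1 + j) / 2 ^ j) := (enorm_add_le _ _).trans (add_le_add h1 h2)
    _ = _ := by
        rw [← ENNReal.ofReal_add (by positivity) (by positivity)]
        congr 1
        ring

/-- the phases of the extension operator -/
noncomputable def Ph (φ : Poly) (y : ℝ × ℝ) (t : ℝ) : Poly :=
  φ + MvPolynomial.C (2 * Real.pi * t) * (MvPolynomial.X 0 * MvPolynomial.X 0 +
      MvPolynomial.X 1 * MvPolynomial.X 1) +
    MvPolynomial.C (2 * Real.pi * y.1) * MvPolynomial.X 0 +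
    MvPolynomial.C (2 * Real.pi * y.2) * MvPolynomial.X 1

lemma ev_Ph (φ : Poly) (y : ℝ × ℝ) (t : ℝ) (z : ℝ × ℝ) : ev (Ph φ y t) z =
    ev φ z + 2 * Real.pi * (z.1 * y.1 + z.2 * y.2 + (z.1 ^ 2 + z.2 ^ 2) * t) := by
  unfold Ph
  simp only [ev_add, ev_mul, ev_C, ev_X0, ev_X1]
  ring

lemma deg_Ph {D : ℕ} {φ : Poly} (hφ : φ.totalDegree ≤ D) (y : ℝ × ℝ) (t : ℝ) :
    (Ph φ y t).totalDegree ≤ D + 2 := by
  have hX : ∀ i : Fin 2, (MvPolynomial.X i : Poly).totalDegree ≤ 1 := by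
    intro i
    rw [MvPolynomial.totalDegree_X]
  unfold Ph
  apply deg_add
  · apply deg_add
    · apply deg_add (hφ.trans (by omega))
      exact (deg_mul (deg_C _ 0) (deg_add (deg_mul (hX 0) (hX 0)) (deg_mul (hX 1) (hX 1)))).trans (by omega)
    · exact (deg_mul (deg_C _ 0) (hX 0)).trans (by omega)
  · exact (deg_mul (deg_C _ 0) (hX 1)).trans (by omega)

lemma pxx_Ph (φ : Poly) (y : ℝ × ℝ) (t : ℝ) (z : ℝ × ℝ) :
    ev (pxx (Ph φ y t)) z = ev (pxx φ) z + 4 * Real.pi * t := by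
  unfold pxx Ph
  simp only [map_add, MvPolynomial.pderiv_mul, MvPolynomial.pderiv_C,
    MvPolynomial.pderiv_X_self, MvPolynomial.pderiv_X_of_ne (show (1 : Fin 2) ≠ 0 by decide)]
  simp [ev]
  ring

lemma pyy_Ph (φ : Poly) (y : ℝ × ℝ) (t : ℝ) (z : ℝ × ℝ) :
    ev (pyy (Ph φ y t)) z = ev (pyy φ) z + 4 * Real.pi * t := by
  unfold pyy Ph
  simp only [map_add, MvPolynomial.pderiv_mul, MvPolynomial.pderiv_C,
    MvPolynomial.pderiv_X_self, MvPolynomial.pderiv_X_of_ne (show (0 : Fin 2) ≠ 1 by decide)]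
  simp [ev]
  ring

lemma pxy_Ph (φ : Poly) (y : ℝ × ℝ) (t : ℝ) (z : ℝ × ℝ) :
    ev (pxy (Ph φ y t)) z = ev (pxy φ) z := by
  unfold pxy Ph
  simp only [map_add, MvPolynomial.pderiv_mul, MvPolynomial.pderiv_C,
    MvPolynomial.pderiv_X_self, MvPolynomial.pderiv_X_of_ne (show (0 : Fin 2) ≠ 1 by decide),
    MvPolynomial.pderiv_X_of_ne (show (1 : Fin 2) ≠ 0 by decide)]
  simp [ev]

/-- the region of nondegeneracy at time `t` -/
def BB (φ : Poly) (s t : ℝ) : Set (ℝ × ℝ) :=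
  {z | 0 < ev (mt s (Ph φ 0 t)) z ∧ 0 < ev (md s (Ph φ 0 t)) z}

lemma Reg_Ph (φ : Poly) (s s' t : ℝ) (y : ℝ × ℝ) :
    Reg s s' (Ph φ y t) = BB φ s t \ BB φ s' t := by
  ext z
  simp only [Reg, BB, Set.mem_sdiff, mem_ofPred_eq, ev_mt, ev_md, pxx_Ph, pyy_Ph, pxy_Ph]

/-- nondegeneracy and eigenvalues -/
lemma eig (α β γ τ s : ℝ) (hs : 0 < s)
    (h1 : s < |(α + γ) / 2 + Real.sqrt (((α - γ) / 2) ^ 2 + β ^ 2) + τ|)
    (h2 : s < |(α + γ) / 2 - Real.sqrt (((α - γ) / 2) ^ 2 + β ^ 2) + τ|) :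
    0 < (α + τ) ^ 2 + 2 * β ^ 2 + (γ + τ) ^ 2 - 2 * s ^ 2 ∧
    0 < ((α + τ) ^ 2 + β ^ 2 - s ^ 2) * (β ^ 2 + (γ + τ) ^ 2 - s ^ 2) -
      β ^ 2 * (α + τ + (γ + τ)) ^ 2 := by
  set r := Real.sqrt (((α - γ) / 2) ^ 2 + β ^ 2) with hr
  have hr2 : r ^ 2 = ((α - γ) / 2) ^ 2 + β ^ 2 := Real.sq_sqrt (by positivity)
  set u := (α + γ) / 2 + r + τ with hu
  set w := (α + γ) / 2 - r + τ with hw
  have hu2 : s ^ 2 < u ^ 2 := by
    rw [← sq_abs u]
    exact pow_lt_pow_left₀ h1 hs.le (by norm_num)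
  have hw2 : s ^ 2 < w ^ 2 := by
    rw [← sq_abs w]
    exact pow_lt_pow_left₀ h2 hs.le (by norm_num)
  have e1 : u + w = (α + τ) + (γ + τ) := by rw [hu, hw]; ring
  have e2 : u * w = (α + τ) * (γ + τ) - β ^ 2 := by
    have : u * w = ((α + γ) / 2 + τ) ^ 2 - r ^ 2 := by rw [hu, hw]; ring
    rw [this, hr2]
    ring
  constructor
  · have e3 : (α + τ) ^ 2 + 2 * β ^ 2 + (γ + τ) ^ 2 = u ^ 2 + w ^ 2 := by
      have : u ^ 2 + w ^ 2 = (u + w) ^ 2 - 2 * (u * w) := by ring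
      rw [this, e1, e2]
      ring
    linarith
  · have e4 : ((α + τ) ^ 2 + β ^ 2 - s ^ 2) * (β ^ 2 + (γ + τ) ^ 2 - s ^ 2) -
        β ^ 2 * (α + τ + (γ + τ)) ^ 2 = (u ^ 2 - s ^ 2) * (w ^ 2 - s ^ 2) := by
      have : (u ^ 2 - s ^ 2) * (w ^ 2 - s ^ 2) =
          (u * w) ^ 2 - s ^ 2 * ((u + w) ^ 2 - 2 * (u * w)) + s ^ 4 := by ring
      rw [this, e1, e2]
      ring
    rw [e4]
    exact mul_pos (by linarith) (by linarith)

lemma vol_abs (c s : ℝ) (hs : 0 < s) : volume {t : ℝ | |c + 4 * Real.pi * t| ≤ s} ≤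
    ENNReal.ofReal (s / 2) := by
  have hpi := Real.pi_gt_three
  have hsub : {t : ℝ | |c + 4 * Real.pi * t| ≤ s} ⊆
      Icc ((-s - c) / (4 * Real.pi)) ((s - c) / (4 * Real.pi)) := by
    intro t ht
    simp only [mem_ofPred_eq, abs_le] at ht
    constructor
    · rw [div_le_iff₀ (by positivity)]
      linarith [ht.1]
    · rw [le_div_iff₀ (by positivity)]
      linarith [ht.2]
  refine (measure_mono hsub).trans ?_
  rw [Real.volume_Icc]
  apply ENNReal.ofReal_le_ofReal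
  rw [← sub_div, div_le_div_iff₀ (by positivity) (by norm_num)]
  nlinarith

/-- **measure of the degenerate times** -/
lemma vol_BB (φ : Poly) (s : ℝ) (hs : 0 < s) (z : ℝ × ℝ) :
    volume {t : ℝ | z ∉ BB φ s t} ≤ ENNReal.ofReal s := by
  set α := ev (pxx φ) z
  set β := ev (pxy φ) z
  set γ := ev (pyy φ) z
  set r := Real.sqrt (((α - γ) / 2) ^ 2 + β ^ 2) with hr
  have hsub : {t : ℝ | z ∉ BB φ s t} ⊆
      {t : ℝ | |((α + γ) / 2 + r) + 4 * Real.pi * t| ≤ s} ∪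
      {t : ℝ | |((α + γ) / 2 - r) + 4 * Real.pi * t| ≤ s} := by
    intro t ht
    by_contra hc
    simp only [mem_union, mem_ofPred_eq, not_or, not_le] at hc
    apply ht
    have h := eig α β γ (4 * Real.pi * t) s hs hc.1 hc.2
    simp only [BB, mem_ofPred_eq, ev_mt, ev_md, pxx_Ph, pyy_Ph, pxy_Ph]
    exact h
  refine (measure_mono hsub).trans ((measure_union_le _ _).trans ?_)
  refine (add_le_add (vol_abs _ s hs) (vol_abs _ s hs)).trans ?_
  rw [← ENNReal.ofReal_add (by positivity) (by positivity)]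
  apply ENNReal.ofReal_le_ofReal
  linarith

end Pool.Agent.Y183.PP
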