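import Pool.Agent.Y183.PP.F
import Pool.Agent.Y183.LS.C
set_option autoImplicit false

/-! Plancherel, the decomposition for fixed time. -/

namespace Pool.Agent.Y183.PP

open MeasureTheory Set Filter Topology Complex
open scoped ENNReal NNReal

/-- the character -/
noncomputable def ch (y z : ℝ × ℝ) : ℂ := cexp ((2 * Real.pi * (z.1 * y.1 + z.2 * y.2) : ℝ) * I)

/-- Plancherel -/
lemma planc (H : ℝ × ℝ → ℂ) (h1 : Integrable H) (h2 : MemLp H 2) :
    ∫⁻ y : ℝ × ℝ, ‖∫ z, H z * ch y z‖ₑ ^ 2 = ∫⁻ z, ‖H z‖ₑ ^ 2 := by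
  set e := (MeasurableEquiv.finTwoArrow : (Fin 2 → ℝ) ≃ᵐ ℝ × ℝ) with he
  have hmp : MeasurePreserving e volume volume := volume_preserving_finTwoArrow ℝ
  have h3 := Pool.Agent.W771.MD.planchM (fun v => H (e v))
    ((hmp.integrable_comp_emb e.measurableEmbedding).mpr h1)
    (h2.comp_measurePreserving hmp) 0
  have e1 : ∀ y v : Fin 2 → ℝ, Pool.Agent.W771.MD.em y 0 v = ch (e y) (e v) := by
    intro y v
    unfold Pool.Agent.W771.MD.em Pool.Agent.W771.MD.qe ch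
    rw [Fin.prod_univ_two, ← Complex.exp_add]
    congr 1
    simp only [he, MeasurableEquiv.finTwoArrow_apply]
    push_cast
    ring
  have e2 : ∀ y : Fin 2 → ℝ, ∫ v, H (e v) * Pool.Agent.W771.MD.em y 0 v = ∫ z, H z * ch (e y) z := by
    intro y
    simp only [e1]
    exact hmp.integral_comp e.measurableEmbedding fun z => H z * ch (e y) z
  simp only [e2] at h3
  rw [← hmp.lintegral_comp_emb e.measurableEmbedding fun y => ‖∫ z, H z * ch y z‖ₑ ^ 2, h3]
  exact hmp.lintegral_comp_emb e.measurableEmbedding fun z => ‖H z‖ₑ ^ 2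

lemma ex_Ph (φ : Poly) (y : ℝ × ℝ) (t : ℝ) (z : ℝ × ℝ) :
    ex (Ph φ y t) z = ex (Ph φ 0 t) z * ch y z := by
  unfold ex ch
  rw [← Complex.exp_add]
  congr 1
  rw [ev_Ph, ev_Ph]
  push_cast
  simp only [Prod.fst_zero, Prod.snd_zero]
  push_cast
  ring

/-- the part of the integral over `A` -/
noncomputable def Fp (φ : Poly) (g : ℝ × ℝ → ℂ) (A : Set (ℝ × ℝ)) (y : ℝ × ℝ) (t : ℝ) : ℂ :=
  ∫ z in SQ, A.indicator (fun z => g z * ex (Ph φ y t) z) z

lemma SQ_vol : volume SQ = 4 := by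
  unfold SQ
  rw [Measure.volume_eq_prod, Measure.prod_prod, Real.volume_Icc, ← ENNReal.ofReal_mul (by norm_num)]
  norm_num

section fixed

variable (φ : Poly) (g : ℝ × ℝ → ℂ) (hg : Measurable g) (V : ℝ) (hV : 0 ≤ V)
  (hgB : ∀ z, ‖g z‖ ≤ V)
include hg hV hgB

lemma part_int (A : Set (ℝ × ℝ)) (hA : MeasurableSet A) (y : ℝ × ℝ) (t : ℝ) :
    IntegrableOn (A.indicator (fun z => g z * ex (Ph φ y t) z)) SQ := by
  apply Measure.integrableOn_of_bounded (M := V)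
  · rw [SQ_vol]; norm_num
  · exact ((hg.mul (ex_cont _).measurable).indicator hA).aestronglyMeasurable
  · apply ae_of_all
    intro z
    by_cases h : z ∈ A
    · rw [indicator_of_mem h, norm_mul, ex_norm, mul_one]
      exact hgB _
    · rw [indicator_of_notMem h, norm_zero]
      exact hV

/-- the `L²` norm of a part -/
lemma part_sq (A : Set (ℝ × ℝ)) (hA : MeasurableSet A) (t : ℝ) :
    ∫⁻ y, ‖Fp φ g A y t‖ₑ ^ 2 ≤ ENNReal.ofReal (V ^ 2) * volume (SQ ∩ A) := by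
  set H : ℝ × ℝ → ℂ := (SQ ∩ A).indicator (fun z => g z * ex (Ph φ 0 t) z) with hH
  have hm : Measurable H := (hg.mul (ex_cont _).measurable).indicator (SQ_meas.inter hA)
  have hHb : ∀ z, ‖H z‖ ≤ V := by
    intro z
    by_cases h : z ∈ SQ ∩ A
    · simp only [hH]
      rw [indicator_of_mem h, norm_mul, ex_norm, mul_one]
      exact hgB _
    · simp only [hH]
      rw [indicator_of_notMem h, norm_zero]
      exact hV
  have hfin : IsFiniteMeasure ((volume : Measure (ℝ × ℝ)).restrict SQ) := ⟨by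
    rw [Measure.restrict_apply_univ, SQ_vol]
    norm_num⟩
  have hsupp : ∀ z, z ∉ SQ → H z = 0 := fun z hz => indicator_of_notMem (fun h => hz h.1) _
  have hHi : SQ.indicator H = H := by
    ext z
    by_cases h : z ∈ SQ
    · rw [indicator_of_mem h]
    · rw [indicator_of_notMem h, hsupp z h]
  have hp : ∀ p : ℝ≥0∞, MemLp H p volume := by
    intro p
    rw [← hHi, memLp_indicator_iff_restrict SQ_meas]
    exact MemLp.of_bound hm.aestronglyMeasurable V (ae_of_all _ hHb)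
  have hpl := planc H (memLp_one_iff_integrable.mp (hp 1)) (hp 2)
  have e1 : ∀ y, Fp φ g A y t = ∫ z, H z * ch y z := by
    intro y
    unfold Fp
    rw [← integral_indicator SQ_meas]
    congr 1
    ext z
    by_cases h : z ∈ SQ
    · rw [indicator_of_mem h]
      by_cases h2 : z ∈ A
      · simp only [hH]
        rw [indicator_of_mem h2, indicator_of_mem (show z ∈ SQ ∩ A from ⟨h, h2⟩), ex_Ph]
        ring
      · simp only [hH]
        rw [indicator_of_notMem h2, indicator_of_notMem (fun h3 => h2 h3.2), zero_mul]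
    · rw [indicator_of_notMem h, hsupp z h, zero_mul]
  simp only [e1]
  rw [hpl]
  calc ∫⁻ z, ‖H z‖ₑ ^ 2 ≤ ∫⁻ z, (SQ ∩ A).indicator (fun _ => ENNReal.ofReal (V ^ 2)) z := by
        apply lintegral_mono
        intro z
        show ‖H z‖ₑ ^ 2 ≤ _
        by_cases h : z ∈ SQ ∩ A
        · rw [indicator_of_mem h, ← ofReal_norm, ← ENNReal.ofReal_pow (norm_nonneg _)]
          apply ENNReal.ofReal_le_ofReal
          exact pow_le_pow_left₀ (norm_nonneg _) (hHb z) 2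
        · rw [indicator_of_notMem h]
          simp only [hH]
          rw [indicator_of_notMem h]
          simp
    _ = _ := by rw [lintegral_indicator_const (SQ_meas.inter hA)]

/-- the `L^q` norm of a part -/
lemma part_q (A : Set (ℝ × ℝ)) (hA : MeasurableSet A) (t : ℝ) (q : ℝ) (hq : 2 ≤ q) (S : ℝ≥0∞)
    (hS : S ≠ ∞) (hsup : ∀ y, ‖Fp φ g A y t‖ₑ ≤ S) :
    ∫⁻ y, ‖Fp φ g A y t‖ₑ ^ q ≤ S ^ (q - 2) * (ENNReal.ofReal (V ^ 2) * volume (SQ ∩ A)) := by
  have hq0 : 0 ≤ q - 2 := by linarith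
  have h1 : ∀ y, ‖Fp φ g A y t‖ₑ ^ q ≤ S ^ (q - 2) * ‖Fp φ g A y t‖ₑ ^ 2 := by
    intro y
    have e : ‖Fp φ g A y t‖ₑ ^ q = ‖Fp φ g A y t‖ₑ ^ (q - 2) * ‖Fp φ g A y t‖ₑ ^ 2 := by
      rw [← ENNReal.rpow_natCast, ← ENNReal.rpow_add_of_nonneg _ _ hq0 (by positivity)]
      congr 1
      push_cast
      ring
    rw [e]
    gcongr
    exact hsup y
  refine (lintegral_mono h1).trans ?_
  rw [lintegral_const_mul' _ _ (ENNReal.rpow_ne_top_of_nonneg hq0 hS)]
  gcongr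
  exact part_sq φ g hg V hV hgB A hA t

end fixed

/-- the pieces -/
def AA (φ : Poly) (t : ℝ) : ℕ → Set (ℝ × ℝ)
  | 0 => (BB φ 1 t)ᶜ
  | (j + 1) => BB φ (2 ^ j) t \ BB φ (2 ^ (j + 1)) t

lemma BB_meas (φ : Poly) (s t : ℝ) : MeasurableSet (BB φ s t) :=
  ((isOpen_lt continuous_const (ev_cont _)).inter (isOpen_lt continuous_const (ev_cont _))).measurableSet

lemma AA_meas (φ : Poly) (t : ℝ) (k : ℕ) : MeasurableSet (AA φ t k) := by
  cases k with
  | zero => exact (BB_meas _ _ _).compl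
  | succ j => exact (BB_meas _ _ _).diff (BB_meas _ _ _)

lemma BB_anti (φ : Poly) (s s' t : ℝ) (hs : 0 ≤ s) (hss : s ≤ s') : BB φ s' t ⊆ BB φ s t := by
  rintro z ⟨h1, h2⟩
  have hd : 0 ≤ s' ^ 2 - s ^ 2 := by nlinarith
  rw [ev_mt] at h1
  rw [ev_md] at h2
  constructor
  · rw [ev_mt]
    nlinarith
  · rw [ev_md]
    set a := ev (pxx (Ph φ 0 t)) z
    set b := ev (pxy (Ph φ 0 t)) z
    set c := ev (pyy (Ph φ 0 t)) z
    have e : (a ^ 2 + b ^ 2 - s ^ 2) * (b ^ 2 + c ^ 2 - s ^ 2) - b ^ 2 * (a + c) ^ 2 =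
        ((a ^ 2 + b ^ 2 - s' ^ 2) * (b ^ 2 + c ^ 2 - s' ^ 2) - b ^ 2 * (a + c) ^ 2) +
        (s' ^ 2 - s ^ 2) * (a ^ 2 + 2 * b ^ 2 + c ^ 2 - 2 * s' ^ 2) + (s' ^ 2 - s ^ 2) ^ 2 := by ring
    rw [e]
    have := mul_nonneg hd h1.le
    positivity

lemma AA_sub (φ : Poly) (t : ℝ) (k : ℕ) : AA φ t k ⊆ (BB φ (2 ^ k) t)ᶜ := by
  cases k with
  | zero => simp [AA]
  | succ j => exact fun z hz => hz.2

lemma AA_sum (φ : Poly) (t : ℝ) (h : ℝ × ℝ → ℂ) (J : ℕ) (z : ℝ × ℝ) :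
    (BB φ (2 ^ J) t)ᶜ.indicator h z = ∑ k ∈ Finset.range (J + 1), (AA φ t k).indicator h z := by
  induction J with
  | zero => simp [AA]
  | succ J ih =>
    rw [Finset.sum_range_succ, ← ih]
    have hsub := BB_anti φ (2 ^ J) (2 ^ (J + 1)) t (by positivity)
      (pow_le_pow_right₀ (by norm_num) (by omega))
    by_cases h1 : z ∈ BB φ (2 ^ J) t
    · have e1 : z ∉ (BB φ (2 ^ J) t)ᶜ := fun h => h h1
      rw [indicator_of_notMem e1, zero_add]
      by_cases h2 : z ∈ BB φ (2 ^ (J + 1)) t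
      · rw [indicator_of_notMem (show z ∉ (BB φ (2 ^ (J + 1)) t)ᶜ from fun h => h h2),
          indicator_of_notMem (show z ∉ AA φ t (J + 1) from fun h => h.2 h2)]
      · rw [indicator_of_mem h2, indicator_of_mem (show z ∈ AA φ t (J + 1) from ⟨h1, h2⟩)]
    · have h2 : z ∉ BB φ (2 ^ (J + 1)) t := fun h => h1 (hsub h)
      rw [indicator_of_mem h2, indicator_of_mem h1, indicator_of_notMem (fun h => h1 h.1), add_zero]

/-- no nondegeneracy of large order on the square -/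
lemma BB_empty (φ : Poly) (t : ℝ) : ∃ J : ℕ, ∀ z ∈ SQ, z ∉ BB φ (2 ^ J) t := by
  have hc : IsCompact SQ := isCompact_Icc.prod isCompact_Icc
  obtain ⟨M, hM⟩ := (hc.image ((ev_cont (mt 0 (Ph φ 0 t))))).bddAbove
  obtain ⟨J, hJ⟩ := pow_unbounded_of_one_lt M (show (1 : ℝ) < 2 by norm_num)
  refine ⟨J, fun z hz hzB => ?_⟩
  have h1 := hM (mem_image_of_mem _ hz)
  have h2 := hzB.1
  rw [ev_mt] at h1 h2
  have h3 : (1 : ℝ) ≤ 2 ^ J := one_le_pow₀ (by norm_num)
  nlinarith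

/-- weighted convexity -/
lemma wsum {ι : Type*} (F : Finset ι) (a Y : ι → ℝ≥0∞) (q : ℝ) (hq : 1 ≤ q)
    (ha0 : ∀ i, a i ≠ 0) (ha : ∀ i, a i ≠ ∞) :
    (∑ i ∈ F, Y i) ^ q ≤ (∑ i ∈ F, a i) ^ (q - 1) * ∑ i ∈ F, a i ^ (1 - q) * Y i ^ q := by
  have h := Pool.Agent.Y183.LS.convex_sum F a (fun i => (a i)⁻¹ * Y i) q hq (fun i _ => ha i)
  have e1 : ∀ i, a i * ((a i)⁻¹ * Y i) = Y i := by
    intro i
    rw [← mul_assoc, ENNReal.mul_inv_cancel (ha0 i) (ha i), one_mul]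
  have e2 : ∀ i, a i * ((a i)⁻¹ * Y i) ^ q = a i ^ (1 - q) * Y i ^ q := by
    intro i
    rw [ENNReal.mul_rpow_of_nonneg _ _ (by linarith), ← mul_assoc, ENNReal.inv_rpow,
      sub_eq_add_neg, ENNReal.rpow_add _ _ (ha0 i) (ha i), ENNReal.rpow_one, ENNReal.rpow_neg]
  simp only [e1, e2] at h
  exact h

/-- the sup bounds of the pieces -/
noncomputable def SS (D : ℕ) (V : ℝ) : ℕ → ℝ
  | 0 => 4 * V
  | (j + 1) => 2 * (c2 (D + 2) * V * (1 + j) / 2 ^ j)

/-- **the estimate for fixed time** -/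
lemma fixedT {D : ℕ} {φ : Poly} (hφ : φ.totalDegree ≤ D) (g : ℝ × ℝ → ℂ) (hg : Measurable g)
    (V : ℝ) (hV : 0 ≤ V) (hgB : ∀ z, ‖g z‖ ≤ V)
    (hvar : ∀ y, eVariationOn (fun x => g (x, y)) (Icc (-1) 1) ≤ ENNReal.ofReal V)
    (hvar' : ∀ x, eVariationOn (fun y => g (x, y)) (Icc (-1) 1) ≤ ENNReal.ofReal V)
    (q r : ℝ) (hq : 2 ≤ q) (hr : 1 ≤ r) (a : ℕ → ℝ≥0∞) (ha0 : ∀ k, a k ≠ 0) (ha : ∀ k, a k ≠ ∞)
    (t : ℝ) :
    (∫⁻ y, ‖∫ z in SQ, g z * ex (Ph φ y t) z‖ₑ ^ q) ^ r ≤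
      (∑' k, a k) ^ ((q - 1) * r + (r - 1)) * ∑' k, a k ^ (1 - r) *
        (a k ^ (1 - q) * (ENNReal.ofReal (SS D V k) ^ (q - 2) * (ENNReal.ofReal (V ^ 2) *
          volume (SQ ∩ AA φ t k)))) ^ r := by
  obtain ⟨J, hJ⟩ := BB_empty φ t
  set F := Finset.range (J + 1) with hF
  -- decomposition
  have hdec : ∀ y, ∫ z in SQ, g z * ex (Ph φ y t) z = ∑ k ∈ F, Fp φ g (AA φ t k) y t := by
    intro y
    unfold Fp
    rw [← integral_finsetSum _ (fun k _ => part_int φ g hg V hV hgB _ (AA_meas φ t k) y t)]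
    apply setIntegral_congr_fun SQ_meas
    intro z hz
    simp only
    rw [← AA_sum φ t (fun z => g z * ex (Ph φ y t) z) J z, indicator_of_mem (hJ z hz)]
  have hsup : ∀ k y, ‖Fp φ g (AA φ t k) y t‖ₑ ≤ ENNReal.ofReal (SS D V k) := by
    intro k y
    cases k with
    | zero =>
      have hb : ∀ z, ‖(AA φ t 0).indicator (fun z => g z * ex (Ph φ y t) z) z‖ ≤ V := by
        intro z
        by_cases h : z ∈ AA φ t 0
        · rw [indicator_of_mem h, norm_mul, ex_norm, mul_one]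
          exact hgB _
        · rw [indicator_of_notMem h, norm_zero]
          exact hV
      have hfin : IsFiniteMeasure ((volume : Measure (ℝ × ℝ)).restrict SQ) := ⟨by
        rw [Measure.restrict_apply_univ, SQ_vol]
        norm_num⟩
      have h1 : ‖Fp φ g (AA φ t 0) y t‖ ≤ V * (volume.restrict SQ).real univ :=
        norm_integral_le_of_norm_le_const (ae_of_all _ hb)
      rw [← ofReal_norm]
      apply ENNReal.ofReal_le_ofReal
      refine h1.trans (le_of_eq ?_)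
      rw [Measure.real, Measure.restrict_apply_univ, SQ_vol]
      simp [SS]
      ring
    | succ j =>
      have h1 := supb (deg_Ph hφ y t) j (2 ^ (j + 1)) g hg V hV hgB hvar hvar'
      rw [Reg_Ph] at h1
      exact h1
  have hpart : ∀ k, ∫⁻ y, ‖Fp φ g (AA φ t k) y t‖ₑ ^ q ≤
      ENNReal.ofReal (SS D V k) ^ (q - 2) * (ENNReal.ofReal (V ^ 2) * volume (SQ ∩ AA φ t k)) :=
    fun k => part_q φ g hg V hV hgB _ (AA_meas φ t k) t q hq _ ENNReal.ofReal_ne_top (hsup k)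
  have hsumF : ∑ k ∈ F, a k ≤ ∑' k, a k := ENNReal.sum_le_tsum F
  -- first convexity
  have hmeas : ∀ k, Measurable fun y => ‖Fp φ g (AA φ t k) y t‖ₑ ^ q := by
    intro k
    apply Measurable.pow_const
    apply Measurable.enorm
    unfold Fp
    apply StronglyMeasurable.measurable
    apply StronglyMeasurable.integral_prod_right'
      (f := fun w : (ℝ × ℝ) × (ℝ × ℝ) => (AA φ t k).indicator (fun z => g z * ex (Ph φ w.1 t) z) w.2)
    apply Measurable.stronglyMeasurable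
    have e : (fun w : (ℝ × ℝ) × (ℝ × ℝ) =>
        (AA φ t k).indicator (fun z => g z * ex (Ph φ w.1 t) z) w.2) =
        fun w => ((AA φ t k).indicator (fun z => g z * ex (Ph φ 0 t) z) w.2) * ch w.1 w.2 := by
      ext w
      by_cases h : w.2 ∈ AA φ t k
      · rw [indicator_of_mem h, indicator_of_mem h, ex_Ph]
        ring
      · rw [indicator_of_notMem h, indicator_of_notMem h, zero_mul]
    rw [e]
    apply Measurable.mul
    · exact ((hg.mul (ex_cont _).measurable).indicator (AA_meas φ t k)).comp measurable_snd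
    · unfold ch
      fun_prop
  have hX : ∫⁻ y, ‖∫ z in SQ, g z * ex (Ph φ y t) z‖ₑ ^ q ≤
      (∑' k, a k) ^ (q - 1) * ∑ k ∈ F, a k ^ (1 - q) * (ENNReal.ofReal (SS D V k) ^ (q - 2) *
        (ENNReal.ofReal (V ^ 2) * volume (SQ ∩ AA φ t k))) := by
    calc ∫⁻ y, ‖∫ z in SQ, g z * ex (Ph φ y t) z‖ₑ ^ q ≤
        ∫⁻ y, (∑ k ∈ F, a k) ^ (q - 1) * ∑ k ∈ F, a k ^ (1 - q) * ‖Fp φ g (AA φ t k) y t‖ₑ ^ q := by
          apply lintegral_mono
          intro y
          simp only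
          rw [hdec]
          refine le_trans ?_ (wsum F a (fun k => ‖Fp φ g (AA φ t k) y t‖ₑ) q (by linarith) ha0 ha)
          gcongr
          exact enorm_sum_le _ _
      _ = (∑ k ∈ F, a k) ^ (q - 1) * ∑ k ∈ F, a k ^ (1 - q) *
          ∫⁻ y, ‖Fp φ g (AA φ t k) y t‖ₑ ^ q := by
          rw [lintegral_const_mul', lintegral_finsetSum]
          · congr 1
            apply Finset.sum_congr rfl
            intro k _
            rw [lintegral_const_mul _ (hmeas k)]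
          · intro k _
            exact (hmeas k).const_mul _
          · apply ENNReal.rpow_ne_top_of_nonneg (by linarith)
            exact (ENNReal.sum_lt_top.mpr fun k _ => (ha k).lt_top).ne
      _ ≤ _ := by
          exact mul_le_mul' (ENNReal.rpow_le_rpow hsumF (by linarith))
            (Finset.sum_le_sum fun k _ => mul_le_mul_right (hpart k) _)
  calc (∫⁻ y, ‖∫ z in SQ, g z * ex (Ph φ y t) z‖ₑ ^ q) ^ r ≤
      ((∑' k, a k) ^ (q - 1) * ∑ k ∈ F, a k ^ (1 - q) * (ENNReal.ofReal (SS D V k) ^ (q - 2) *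
        (ENNReal.ofReal (V ^ 2) * volume (SQ ∩ AA φ t k)))) ^ r := by gcongr
    _ = (∑' k, a k) ^ ((q - 1) * r) * (∑ k ∈ F, a k ^ (1 - q) * (ENNReal.ofReal (SS D V k) ^ (q - 2) *
        (ENNReal.ofReal (V ^ 2) * volume (SQ ∩ AA φ t k)))) ^ r := by
        rw [ENNReal.mul_rpow_of_nonneg _ _ (by linarith), ← ENNReal.rpow_mul]
    _ ≤ (∑' k, a k) ^ ((q - 1) * r) * ((∑ k ∈ F, a k) ^ (r - 1) * ∑ k ∈ F, a k ^ (1 - r) *
        (a k ^ (1 - q) * (ENNReal.ofReal (SS D V k) ^ (q - 2) *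
        (ENNReal.ofReal (V ^ 2) * volume (SQ ∩ AA φ t k)))) ^ r) := by
        gcongr
        exact wsum F a _ r hr ha0 ha
    _ ≤ (∑' k, a k) ^ ((q - 1) * r) * ((∑' k, a k) ^ (r - 1) * ∑' k, a k ^ (1 - r) *
        (a k ^ (1 - q) * (ENNReal.ofReal (SS D V k) ^ (q - 2) *
        (ENNReal.ofReal (V ^ 2) * volume (SQ ∩ AA φ t k)))) ^ r) := by
        gcongr
        exact ENNReal.sum_le_tsum F
    _ = _ := by
        rw [← mul_assoc, ← ENNReal.rpow_add_of_nonneg _ _ (mul_nonneg (by linarith) (by linarith))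
          (by linarith)]

end Pool.Agent.Y183.PP
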