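import Pool.Agent.Y183.PP.G
set_option autoImplicit false

/-! Integration in time: the mixed norm estimate for polynomial phases. -/

namespace Pool.Agent.Y183.PP

open MeasureTheory Set Filter Topology Complex
open scoped ENNReal NNReal

lemma BB_joint (φ : Poly) (s : ℝ) : MeasurableSet {w : ℝ × (ℝ × ℝ) | w.2 ∈ BB φ s w.1} := by
  have e : {w : ℝ × (ℝ × ℝ) | w.2 ∈ BB φ s w.1} =
      {w | 0 < (ev (pxx φ) w.2 + 4 * Real.pi * w.1) ^ 2 + 2 * ev (pxy φ) w.2 ^ 2 +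
        (ev (pyy φ) w.2 + 4 * Real.pi * w.1) ^ 2 - 2 * s ^ 2} ∩
      {w | 0 < ((ev (pxx φ) w.2 + 4 * Real.pi * w.1) ^ 2 + ev (pxy φ) w.2 ^ 2 - s ^ 2) *
        (ev (pxy φ) w.2 ^ 2 + (ev (pyy φ) w.2 + 4 * Real.pi * w.1) ^ 2 - s ^ 2) -
        ev (pxy φ) w.2 ^ 2 * (ev (pxx φ) w.2 + 4 * Real.pi * w.1 +
          (ev (pyy φ) w.2 + 4 * Real.pi * w.1)) ^ 2} := by
    ext w
    simp only [BB, mem_ofPred_eq, mem_inter_iff, ev_mt, ev_md, pxx_Ph, pyy_Ph, pxy_Ph]
  rw [e]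
  have h1 : Continuous fun w : ℝ × (ℝ × ℝ) => ev (pxx φ) w.2 := (ev_cont _).comp continuous_snd
  have h2 : Continuous fun w : ℝ × (ℝ × ℝ) => ev (pxy φ) w.2 := (ev_cont _).comp continuous_snd
  have h3 : Continuous fun w : ℝ × (ℝ × ℝ) => ev (pyy φ) w.2 := (ev_cont _).comp continuous_snd
  apply MeasurableSet.inter
  · exact (isOpen_lt continuous_const (by fun_prop)).measurableSet
  · exact (isOpen_lt continuous_const (by fun_prop)).measurableSet

/-- **the total measure of a piece** -/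
lemma time (φ : Poly) (k : ℕ) : ∫⁻ t : ℝ, volume (SQ ∩ AA φ t k) ≤ ENNReal.ofReal (4 * 2 ^ k) := by
  set f : ℝ × (ℝ × ℝ) → ℝ≥0∞ := {w : ℝ × (ℝ × ℝ) | w.2 ∈ BB φ (2 ^ k) w.1}ᶜ.indicator fun _ => 1
    with hf
  have hfm : Measurable f := measurable_const.indicator (BB_joint φ _).compl
  calc ∫⁻ t : ℝ, volume (SQ ∩ AA φ t k) ≤ ∫⁻ t : ℝ, ∫⁻ z in SQ, f (t, z) := by
        apply lintegral_mono
        intro t
        have e1 : ∀ z, f (t, z) = (BB φ (2 ^ k) t)ᶜ.indicator (fun _ => (1 : ℝ≥0∞)) z := by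
          intro z
          simp only [hf]
          by_cases h : z ∈ BB φ (2 ^ k) t
          · have h1 : ((t, z) : ℝ × (ℝ × ℝ)) ∉ {w : ℝ × (ℝ × ℝ) | w.2 ∈ BB φ (2 ^ k) w.1}ᶜ :=
              fun h' => h' h
            have h2 : z ∉ (BB φ (2 ^ k) t)ᶜ := fun h' => h' h
            rw [indicator_of_notMem h1, indicator_of_notMem h2]
          · have h1 : ((t, z) : ℝ × (ℝ × ℝ)) ∈ {w : ℝ × (ℝ × ℝ) | w.2 ∈ BB φ (2 ^ k) w.1}ᶜ := h
            have h2 : z ∈ (BB φ (2 ^ k) t)ᶜ := h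
            rw [indicator_of_mem h1, indicator_of_mem h2]
        simp only [e1]
        rw [lintegral_indicator_const (BB_meas _ _ _).compl, one_mul,
          Measure.restrict_apply (BB_meas _ _ _).compl, inter_comm]
        exact measure_mono (inter_subset_inter_left _ (AA_sub φ t k))
    _ = ∫⁻ z in SQ, ∫⁻ t : ℝ, f (t, z) := by
        rw [lintegral_lintegral_swap]
        exact hfm.aemeasurable
    _ ≤ ∫⁻ _z in SQ, ENNReal.ofReal (2 ^ k) := by
        apply lintegral_mono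
        intro z
        have e1 : ∀ t, f (t, z) = {t : ℝ | z ∉ BB φ (2 ^ k) t}.indicator (fun _ => (1 : ℝ≥0∞)) t := by
          intro t
          simp only [hf]
          by_cases h : z ∈ BB φ (2 ^ k) t
          · have h1 : ((t, z) : ℝ × (ℝ × ℝ)) ∉ {w : ℝ × (ℝ × ℝ) | w.2 ∈ BB φ (2 ^ k) w.1}ᶜ :=
              fun h' => h' h
            have h2 : t ∉ {t : ℝ | z ∉ BB φ (2 ^ k) t} := fun h' => h' h
            rw [indicator_of_notMem h1, indicator_of_notMem h2]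
          · have h1 : ((t, z) : ℝ × (ℝ × ℝ)) ∈ {w : ℝ × (ℝ × ℝ) | w.2 ∈ BB φ (2 ^ k) w.1}ᶜ := h
            have h2 : t ∈ {t : ℝ | z ∉ BB φ (2 ^ k) t} := h
            rw [indicator_of_mem h1, indicator_of_mem h2]
        simp only [e1]
        rw [lintegral_indicator_const, one_mul]
        · exact vol_BB φ (2 ^ k) (by positivity) z
        · have h := (BB_joint φ (2 ^ k)).compl
          have e2 : {t : ℝ | z ∉ BB φ (2 ^ k) t} =
              (fun t : ℝ => (t, z)) ⁻¹' {w : ℝ × (ℝ × ℝ) | w.2 ∈ BB φ (2 ^ k) w.1}ᶜ := by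
            ext t; simp
          rw [e2]
          exact h.preimage (by fun_prop)
    _ = _ := by
        rw [lintegral_const, Measure.restrict_apply_univ, SQ_vol, show (4 : ℝ≥0∞) =
          ENNReal.ofReal 4 by norm_num, ← ENNReal.ofReal_mul (by positivity)]
        congr 1
        ring

lemma SS_nonneg (D : ℕ) (V : ℝ) (hV : 0 ≤ V) (k : ℕ) : 0 ≤ SS D V k := by
  have := c2_nonneg (D + 2)
  cases k with
  | zero => simp only [SS]; positivity
  | succ j => simp only [SS]; positivity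

lemma c2_poly : ∃ K : ℝ, 0 < K ∧ ∀ D : ℕ, 1 + c2 (D + 2) ≤ K * (1 + D : ℝ) ^ 5 := by
  refine ⟨10 ^ 12, by positivity, ?_⟩
  intro D
  have hD : (0 : ℝ) ≤ D := Nat.cast_nonneg D
  have e : c1 (D + 2) = 8 * ((1 + 2 * (10 * (D + 2) + 2)) ^ 2) ^ 2 := by
    unfold c1 NN
    push_cast
    ring
  unfold c2
  rw [e]
  have h : (1 + 2 * (10 * ((D : ℝ) + 2) + 2)) ≤ 45 * (1 + D) := by linarith
  have h0 : 0 ≤ (1 + 2 * (10 * ((D : ℝ) + 2) + 2)) := by linarith
  have h2 : 8 * ((1 + 2 * (10 * ((D : ℝ) + 2) + 2)) ^ 2) ^ 2 ≤ 8 * (45 * (1 + D : ℝ)) ^ 4 := by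
    have := pow_le_pow_left₀ h0 h 4
    nlinarith
  have h3 : (1 : ℝ) ≤ 1 + D := by linarith
  have h4 : (1 : ℝ) ≤ (1 + D : ℝ) ^ 4 := one_le_pow₀ h3
  have h5 : (1 + D : ℝ) ^ 4 ≤ (1 + D : ℝ) ^ 5 := pow_le_pow_right₀ h3 (by norm_num)
  have h6 : 15 * (((D + 2 : ℕ) : ℝ)) + 1 ≤ 31 * (1 + D) := by push_cast; linarith
  have h7 : 0 ≤ 15 * (((D + 2 : ℕ) : ℝ)) + 1 := by positivity
  set X := 8 * ((1 + 2 * (10 * ((D : ℝ) + 2) + 2)) ^ 2) ^ 2 with hX
  have hX0 : 0 ≤ X := by positivity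
  have h8 : 12 * (15 * (((D + 2 : ℕ) : ℝ)) + 1) * X ≤ 12 * (31 * (1 + D)) * (8 * (45 * (1 + D : ℝ)) ^ 4) := by
    gcongr
  have e2 : 12 * (31 * (1 + D)) * (8 * (45 * (1 + D : ℝ)) ^ 4) =
    12 * 31 * 8 * 45 ^ 4 * (1 + D : ℝ) ^ 5 := by ring
  have e3 : 8 * (45 * (1 + D : ℝ)) ^ 4 = 8 * 45 ^ 4 * (1 + D : ℝ) ^ 4 := by ring
  rw [e2] at h8
  rw [e3] at h2
  have h9 : (1 : ℝ) + D ≤ (1 + D : ℝ) ^ 5 := le_self_pow₀ h3 (by norm_num)
  nlinarith

lemma SS_bound (δ : ℝ) (hδ : 0 < δ) (hδ1 : δ ≤ 1) : ∃ C : ℝ, 0 < C ∧ ∀ (D : ℕ) (V : ℝ), 0 ≤ V →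
    ∀ k : ℕ, SS D V k ≤ (C * (1 + D : ℝ) ^ 5) * V * (2 : ℝ) ^ (-(1 - δ) * k) := by
  obtain ⟨K, hK, hKD⟩ := c2_poly
  set c : ℝ := δ * Real.log 2 with hc
  have hc0 : 0 < c := mul_pos hδ (Real.log_pos (by norm_num))
  set C5 : ℝ := 1 + 1 / c with hC5
  have hC50 : 0 < C5 := by rw [hC5]; positivity
  have h1 : ∀ j : ℕ, (1 : ℝ) + j ≤ C5 * (2 : ℝ) ^ (δ * j) := by
    intro j
    have h2 : 1 + c * j ≤ (2 : ℝ) ^ (δ * j) := by
      rw [Real.rpow_def_of_pos (by norm_num)]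
      have := Real.add_one_le_exp (Real.log 2 * (δ * j))
      calc 1 + c * j = Real.log 2 * (δ * j) + 1 := by rw [hc]; ring
        _ ≤ _ := this
    have hj : (0 : ℝ) ≤ j := Nat.cast_nonneg j
    calc (1 : ℝ) + j ≤ C5 * (1 + c * j) := by
          rw [hC5]
          have e : (1 + 1 / c) * (1 + c * j) = 1 + j + 1 / c + c * j := by
            field_simp
            ring
          rw [e]
          have : 0 ≤ 1 / c + c * j := by positivity
          linarith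
      _ ≤ _ := by gcongr
  refine ⟨(4 + 4 * C5) * K, by positivity, ?_⟩
  intro D V hV k
  have hc2 := c2_nonneg (D + 2)
  suffices hs : SS D V k ≤ (4 + 4 * c2 (D + 2) * C5) * V * (2 : ℝ) ^ (-(1 - δ) * k) by
    refine hs.trans ?_
    gcongr
    calc 4 + 4 * c2 (D + 2) * C5 ≤ (4 + 4 * C5) * (1 + c2 (D + 2)) := by
          have : 0 ≤ 4 * C5 + 4 * c2 (D + 2) := by positivity
          nlinarith
      _ ≤ (4 + 4 * C5) * (K * (1 + D : ℝ) ^ 5) := by
          gcongr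
          exact hKD D
      _ = _ := by ring
  cases k with
  | zero =>
    simp only [SS, Nat.cast_zero, mul_zero, Real.rpow_zero, mul_one]
    have : 0 ≤ 4 * c2 (D + 2) * C5 * V := by positivity
    nlinarith
  | succ j =>
    simp only [SS]
    have e1 : (2 : ℝ) ^ (-(1 - δ) * ((j + 1 : ℕ) : ℝ)) =
        (2 : ℝ) ^ (-(1 - δ)) * ((2 : ℝ) ^ (δ * j) * ((2 : ℝ) ^ j)⁻¹) := by
      rw [← Real.rpow_natCast 2 j, ← Real.rpow_neg (by norm_num), ← Real.rpow_add (by norm_num),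
        ← Real.rpow_add (by norm_num)]
      congr 1
      push_cast
      ring
    have e2 : (1 / 2 : ℝ) ≤ (2 : ℝ) ^ (-(1 - δ)) := by
      have h3 : (2 : ℝ) ^ (-1 : ℝ) ≤ (2 : ℝ) ^ (-(1 - δ)) :=
        Real.rpow_le_rpow_of_exponent_le (by norm_num) (by linarith)
      rwa [Real.rpow_neg_one, ← one_div] at h3
    rw [e1]
    have h4 : 0 ≤ (2 : ℝ) ^ (δ * j) * ((2 : ℝ) ^ j)⁻¹ := by positivity
    calc 2 * (c2 (D + 2) * V * (1 + j) / 2 ^ j) ≤
        2 * (c2 (D + 2) * V * (C5 * (2 : ℝ) ^ (δ * j)) / 2 ^ j) := by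
          gcongr
          exact h1 j
      _ = (4 * c2 (D + 2) * C5) * V * ((1 / 2) * ((2 : ℝ) ^ (δ * j) * ((2 : ℝ) ^ j)⁻¹)) := by
          rw [div_eq_mul_inv]
          ring
      _ ≤ (4 + 4 * c2 (D + 2) * C5) * V * ((2 : ℝ) ^ (-(1 - δ)) *
          ((2 : ℝ) ^ (δ * j) * ((2 : ℝ) ^ j)⁻¹)) := by
          gcongr
          linarith

/-- **the mixed norm estimate** for polynomial phases and amplitudes of bounded variation on
lines, with the dependence on the degree -/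
theorem mixed_exp (q r : ℝ) (hq : 2 < q) (hr : 1 ≤ r) (hqr : 1 < (q - 2) * r) :
    ∃ C : ℝ≥0, ∀ D : ℕ, ∀ φ : Poly, φ.totalDegree ≤ D → ∀ g : ℝ × ℝ → ℂ, Measurable g →
      ∀ V : ℝ, 0 < V → (∀ z, ‖g z‖ ≤ V) →
      (∀ y, eVariationOn (fun x => g (x, y)) (Icc (-1) 1) ≤ ENNReal.ofReal V) →
      (∀ x, eVariationOn (fun y => g (x, y)) (Icc (-1) 1) ≤ ENNReal.ofReal V) →
      ∫⁻ t : ℝ, (∫⁻ y : ℝ × ℝ, ‖∫ z in SQ, g z * ex (Ph φ y t) z‖ₑ ^ q) ^ r ≤
        C * ENNReal.ofReal ((1 + D : ℝ) ^ 5) ^ ((q - 2) * r) * ENNReal.ofReal V ^ (q * r) := by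
  -- the exponents
  set θ : ℝ := (q - 2) * r - 1 with hθ
  have hθ0 : 0 < θ := by rw [hθ]; linarith
  set W : ℝ := (r - 1) + r * (q - 1) + (q - 2) * r + 1 with hW
  have hW0 : 0 < W := by
    rw [hW]
    have : 0 ≤ r * (q - 1) := mul_nonneg (by linarith) (by linarith)
    have : 0 < (q - 2) * r := by linarith
    linarith
  set δ : ℝ := min 1 (θ / (2 * W)) with hδ
  have hδ0 : 0 < δ := by rw [hδ]; positivity
  have hδ1 : δ ≤ 1 := min_le_left _ _
  have hδW : δ * W ≤ θ / 2 := by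
    have h1 : δ ≤ θ / (2 * W) := min_le_right _ _
    calc δ * W ≤ θ / (2 * W) * W := by gcongr
      _ = θ / 2 := by field_simp
  set e : ℝ := δ * (r - 1) + δ * (r * (q - 1)) - (1 - δ) * ((q - 2) * r) + 1 with he
  have he0 : e ≤ -(θ / 2) := by
    have : e = δ * (W - 1) - θ := by rw [he, hW, hθ]; ring
    rw [this]
    nlinarith
  obtain ⟨C6, hC6, hSS⟩ := SS_bound δ hδ0 hδ1
  set a : ℕ → ℝ≥0∞ := fun k => ENNReal.ofReal ((2 : ℝ) ^ (-δ * k)) with ha
  have ha0 : ∀ k, a k ≠ 0 := by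
    intro k
    simp only [ha, ne_eq, ENNReal.ofReal_eq_zero, not_le]
    positivity
  have hat : ∀ k, a k ≠ ∞ := fun k => ENNReal.ofReal_ne_top
  -- geometric series
  have hgeo : ∀ c : ℝ, 0 < c → ∑' k : ℕ, ENNReal.ofReal ((2 : ℝ) ^ (-c * k)) ≠ ∞ := by
    intro c hc
    have e1 : ∀ k : ℕ, ENNReal.ofReal ((2 : ℝ) ^ (-c * k)) = ENNReal.ofReal ((2 : ℝ) ^ (-c)) ^ k := by
      intro k
      rw [← ENNReal.ofReal_pow (by positivity), ← Real.rpow_natCast, ← Real.rpow_mul (by norm_num)]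
    simp only [e1]
    rw [ENNReal.tsum_geometric]
    rw [ne_eq, ENNReal.inv_eq_top, tsub_eq_zero_iff_le, not_le]
    rw [← ENNReal.ofReal_one]
    apply (ENNReal.ofReal_lt_ofReal_iff (by norm_num)).mpr
    exact Real.rpow_lt_one_of_one_lt_of_neg (by norm_num) (by linarith)
  have hat2 : ∑' k, a k ≠ ∞ := hgeo δ hδ0
  set E0 : ℝ≥0∞ := (∑' k, a k) ^ ((q - 1) * r + (r - 1)) with hE0
  have hE0t : E0 ≠ ∞ := ENNReal.rpow_ne_top_of_nonneg
    (add_nonneg (mul_nonneg (by linarith) (by linarith)) (by linarith)) hat2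
  set G0 : ℝ≥0∞ := ∑' k : ℕ, ENNReal.ofReal ((2 : ℝ) ^ (-(θ / 2) * k)) with hG0
  have hG0t : G0 ≠ ∞ := hgeo _ (by positivity)
  refine ⟨(E0 * (ENNReal.ofReal (4 ^ r * C6 ^ ((q - 2) * r)) * G0)).toNNReal, ?_⟩
  rw [ENNReal.coe_toNNReal (ENNReal.mul_ne_top hE0t (ENNReal.mul_ne_top ENNReal.ofReal_ne_top hG0t))]
  intro D φ hφ g hg V hV hgB hvar hvar'
  set C4 : ℝ := C6 * (1 + D : ℝ) ^ 5 with hC4d
  have hC4 : 0 < C4 := by rw [hC4d]; positivity
  set B0 : ℝ := 4 ^ r * C4 ^ ((q - 2) * r) with hB0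
  have hB00 : 0 ≤ B0 := by rw [hB0]; positivity
  have hB0e : ENNReal.ofReal B0 = ENNReal.ofReal (4 ^ r * C6 ^ ((q - 2) * r)) *
      ENNReal.ofReal ((1 + D : ℝ) ^ 5) ^ ((q - 2) * r) := by
    rw [ENNReal.ofReal_rpow_of_pos (by positivity), ← ENNReal.ofReal_mul (by positivity), hB0, hC4d,
      Real.mul_rpow hC6.le (by positivity), mul_assoc]
  have hre : E0 * (ENNReal.ofReal (4 ^ r * C6 ^ ((q - 2) * r)) * G0) *
      ENNReal.ofReal ((1 + D : ℝ) ^ 5) ^ ((q - 2) * r) * ENNReal.ofReal V ^ (q * r) =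
      E0 * (ENNReal.ofReal B0 * G0) * ENNReal.ofReal V ^ (q * r) := by
    rw [hB0e]
    ring
  rw [hre]
  -- the fixed time estimate
  have hfix := fun t => fixedT hφ g hg V hV.le hgB hvar hvar' q r hq.le hr a ha0 hat t
  refine (lintegral_mono hfix).trans ?_
  rw [lintegral_const_mul' _ _ hE0t, mul_assoc E0]
  gcongr
  -- measurability
  have hNm : ∀ k, Measurable fun t : ℝ => volume (SQ ∩ AA φ t k) := by
    intro k
    have hj : MeasurableSet {w : ℝ × (ℝ × ℝ) | w.2 ∈ SQ ∩ AA φ w.1 k} := by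
      apply MeasurableSet.inter (measurable_snd SQ_meas)
      cases k with
      | zero => exact (BB_joint φ 1).compl
      | succ j => exact (BB_joint φ _).diff (BB_joint φ _)
    exact measurable_measure_prodMk_left hj
  have hN4 : ∀ k t, volume (SQ ∩ AA φ t k) ≤ 4 := by
    intro k t
    rw [← SQ_vol]
    exact measure_mono inter_subset_left
  have hr0 : 0 ≤ r := by linarith
  rw [lintegral_tsum]
  swap
  · intro k
    exact (((((hNm k).const_mul _).const_mul _).const_mul _).pow_const r |>.const_mul _).aemeasurable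
  have hterm : ∀ k, ∫⁻ t : ℝ, a k ^ (1 - r) * (a k ^ (1 - q) * (ENNReal.ofReal (SS D V k) ^ (q - 2) *
      (ENNReal.ofReal (V ^ 2) * volume (SQ ∩ AA φ t k)))) ^ r ≤
      ENNReal.ofReal B0 * ENNReal.ofReal ((2 : ℝ) ^ (-(θ / 2) * k)) * ENNReal.ofReal V ^ (q * r) := by
    intro k
    set A1 : ℝ≥0∞ := a k ^ (1 - q) * (ENNReal.ofReal (SS D V k) ^ (q - 2) * ENNReal.ofReal (V ^ 2))
      with hA1
    have h1 : ∀ t, a k ^ (1 - r) * (a k ^ (1 - q) * (ENNReal.ofReal (SS D V k) ^ (q - 2) *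
        (ENNReal.ofReal (V ^ 2) * volume (SQ ∩ AA φ t k)))) ^ r ≤
        a k ^ (1 - r) * A1 ^ r * 4 ^ (r - 1) * volume (SQ ∩ AA φ t k) := by
      intro t
      set N := volume (SQ ∩ AA φ t k) with hN
      have e1 : a k ^ (1 - q) * (ENNReal.ofReal (SS D V k) ^ (q - 2) * (ENNReal.ofReal (V ^ 2) * N)) =
          A1 * N := by rw [hA1]; ring
      rw [e1, ENNReal.mul_rpow_of_nonneg _ _ hr0]
      have e2 : N ^ r ≤ 4 ^ (r - 1) * N := by
        have : N ^ r = N ^ (r - 1) * N := by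
          nth_rewrite 3 [← ENNReal.rpow_one N]
          rw [← ENNReal.rpow_add_of_nonneg _ _ (by linarith) (by norm_num)]
          congr 1
          ring
        rw [this]
        gcongr
        · exact hN4 k t
      calc a k ^ (1 - r) * (A1 ^ r * N ^ r) ≤ a k ^ (1 - r) * (A1 ^ r * (4 ^ (r - 1) * N)) := by gcongr
        _ = _ := by ring
    refine (lintegral_mono h1).trans ?_
    rw [lintegral_const_mul _ (hNm k)]
    refine (mul_le_mul_right (time φ k) _).trans ?_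
    -- the real bound
    have hVne : ENNReal.ofReal V ^ (q * r) = ENNReal.ofReal (V ^ (q * r)) :=
      ENNReal.ofReal_rpow_of_pos hV
    have hSle : ENNReal.ofReal (SS D V k) ^ (q - 2) ≤
        ENNReal.ofReal ((C4 * V * (2 : ℝ) ^ (-(1 - δ) * k)) ^ (q - 2)) := by
      rw [← ENNReal.ofReal_rpow_of_nonneg (by positivity) (by linarith)]
      gcongr
      exact hSS D V hV.le k
    have hak : ∀ x : ℝ, a k ^ x = ENNReal.ofReal ((2 : ℝ) ^ (-δ * k * x)) := by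
      intro x
      simp only [ha]
      rw [ENNReal.ofReal_rpow_of_pos (by positivity), ← Real.rpow_mul (by norm_num)]
    have hA1le : A1 ^ r ≤ ENNReal.ofReal (((2 : ℝ) ^ (-δ * k * (1 - q)) *
        ((C4 * V * (2 : ℝ) ^ (-(1 - δ) * k)) ^ (q - 2) * V ^ 2)) ^ r) := by
      rw [← ENNReal.ofReal_rpow_of_nonneg (by positivity) hr0]
      gcongr
      rw [hA1, hak, ENNReal.ofReal_mul (by positivity), ENNReal.ofReal_mul (by positivity)]
      gcongr
    have h4 : (4 : ℝ≥0∞) ^ (r - 1) = ENNReal.ofReal ((4 : ℝ) ^ (r - 1)) := by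
      rw [← ENNReal.ofReal_rpow_of_pos (by norm_num)]
      norm_num
    calc a k ^ (1 - r) * A1 ^ r * 4 ^ (r - 1) * ENNReal.ofReal (4 * 2 ^ k) ≤
        ENNReal.ofReal ((2 : ℝ) ^ (-δ * k * (1 - r))) *
          ENNReal.ofReal (((2 : ℝ) ^ (-δ * k * (1 - q)) *
            ((C4 * V * (2 : ℝ) ^ (-(1 - δ) * k)) ^ (q - 2) * V ^ 2)) ^ r) *
          ENNReal.ofReal ((4 : ℝ) ^ (r - 1)) * ENNReal.ofReal (4 * 2 ^ k) := by
          rw [hak, h4]
          gcongr
      _ = ENNReal.ofReal ((2 : ℝ) ^ (-δ * k * (1 - r)) * (((2 : ℝ) ^ (-δ * k * (1 - q)) *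
            ((C4 * V * (2 : ℝ) ^ (-(1 - δ) * k)) ^ (q - 2) * V ^ 2)) ^ r) *
            (4 : ℝ) ^ (r - 1) * (4 * 2 ^ k)) := by
          rw [← ENNReal.ofReal_mul (by positivity), ← ENNReal.ofReal_mul (by positivity),
            ← ENNReal.ofReal_mul (by positivity)]
      _ ≤ ENNReal.ofReal (B0 * (2 : ℝ) ^ (-(θ / 2) * k) * V ^ (q * r)) := by
          apply ENNReal.ofReal_le_ofReal
          have f1 : ((2 : ℝ) ^ (-δ * k * (1 - q)) *
              ((C4 * V * (2 : ℝ) ^ (-(1 - δ) * k)) ^ (q - 2) * V ^ 2)) ^ r =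
              C4 ^ ((q - 2) * r) * V ^ (q * r) *
                (2 : ℝ) ^ (-δ * k * (1 - q) * r + -(1 - δ) * k * ((q - 2) * r)) := by
            set X : ℝ := (2 : ℝ) ^ (-δ * k * (1 - q)) with hX
            set Y : ℝ := (2 : ℝ) ^ (-(1 - δ) * k) with hY
            have hX0 : 0 ≤ X := by rw [hX]; positivity
            have hY0 : 0 ≤ Y := by rw [hY]; positivity
            have q1 : (C4 * V * Y) ^ (q - 2) = C4 ^ (q - 2) * V ^ (q - 2) * Y ^ (q - 2) := by
              rw [Real.mul_rpow (mul_nonneg hC4.le hV.le) hY0, Real.mul_rpow hC4.le hV.le]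
            have q2 : (X * ((C4 * V * Y) ^ (q - 2) * V ^ 2)) ^ r =
                X ^ r * (((C4 ^ (q - 2)) ^ r * (V ^ (q - 2)) ^ r * (Y ^ (q - 2)) ^ r) *
                  (V ^ 2) ^ r) := by
              rw [q1, Real.mul_rpow hX0 (by positivity),
                Real.mul_rpow (by positivity) (by positivity),
                Real.mul_rpow (by positivity) (by positivity),
                Real.mul_rpow (by positivity) (by positivity)]
            have q3 : (V ^ 2) ^ r = V ^ (2 * r) := by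
              rw [← Real.rpow_natCast V 2, ← Real.rpow_mul hV.le]
              norm_num
            have q4 : X ^ r = (2 : ℝ) ^ (-δ * k * (1 - q) * r) := by
              rw [hX, ← Real.rpow_mul (by norm_num)]
            have q5 : (Y ^ (q - 2)) ^ r = (2 : ℝ) ^ (-(1 - δ) * k * ((q - 2) * r)) := by
              rw [← Real.rpow_mul hY0, hY, ← Real.rpow_mul (by norm_num)]
            have q6 : V ^ (q * r) = V ^ ((q - 2) * r) * V ^ (2 * r) := by
              rw [← Real.rpow_add hV]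
              congr 1
              ring
            rw [q2, q3, q4, q5, ← Real.rpow_mul hC4.le, ← Real.rpow_mul hV.le, q6,
              Real.rpow_add (by norm_num)]
            ring
          have f2 : (4 : ℝ) ^ (r - 1) * (4 * 2 ^ k) = 4 ^ r * (2 : ℝ) ^ (k : ℝ) := by
            rw [Real.rpow_natCast, Real.rpow_sub_one (by norm_num)]
            ring
          calc (2 : ℝ) ^ (-δ * k * (1 - r)) * (((2 : ℝ) ^ (-δ * k * (1 - q)) *
                ((C4 * V * (2 : ℝ) ^ (-(1 - δ) * k)) ^ (q - 2) * V ^ 2)) ^ r) *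
                (4 : ℝ) ^ (r - 1) * (4 * 2 ^ k) =
              B0 * V ^ (q * r) * ((2 : ℝ) ^ (-δ * k * (1 - r)) *
                (2 : ℝ) ^ (-δ * k * (1 - q) * r + -(1 - δ) * k * ((q - 2) * r)) *
                (2 : ℝ) ^ (k : ℝ)) := by
                rw [mul_assoc _ ((4 : ℝ) ^ (r - 1)), f2, f1, hB0]
                ring
            _ = B0 * V ^ (q * r) * (2 : ℝ) ^ (e * k) := by
                rw [← Real.rpow_add (by norm_num), ← Real.rpow_add (by norm_num)]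
                congr 2
                rw [he]
                ring
            _ ≤ B0 * V ^ (q * r) * (2 : ℝ) ^ (-(θ / 2) * k) := by
                gcongr
                norm_num
            _ = _ := by ring
      _ = _ := by
          rw [ENNReal.ofReal_mul (by positivity), ENNReal.ofReal_mul hB00, hVne]
  refine (ENNReal.tsum_le_tsum hterm).trans ?_
  rw [ENNReal.tsum_mul_right, ENNReal.tsum_mul_left]

/-- **the mixed norm estimate** for polynomial phases and amplitudes of bounded variation on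
lines -/
theorem mixed (D : ℕ) (q r : ℝ) (hq : 2 < q) (hr : 1 ≤ r) (hqr : 1 < (q - 2) * r) :
    ∃ C : ℝ≥0, ∀ φ : Poly, φ.totalDegree ≤ D → ∀ g : ℝ × ℝ → ℂ, Measurable g → ∀ V : ℝ, 0 < V →
      (∀ z, ‖g z‖ ≤ V) →
      (∀ y, eVariationOn (fun x => g (x, y)) (Icc (-1) 1) ≤ ENNReal.ofReal V) →
      (∀ x, eVariationOn (fun y => g (x, y)) (Icc (-1) 1) ≤ ENNReal.ofReal V) →
      ∫⁻ t : ℝ, (∫⁻ y : ℝ × ℝ, ‖∫ z in SQ, g z * ex (Ph φ y t) z‖ₑ ^ q) ^ r ≤
        C * ENNReal.ofReal V ^ (q * r) := by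
  obtain ⟨C, hC⟩ := mixed_exp q r hq hr hqr
  refine ⟨C * (ENNReal.ofReal ((1 + D : ℝ) ^ 5) ^ ((q - 2) * r)).toNNReal, ?_⟩
  intro φ hφ g hg V hV hgB hvar hvar'
  rw [ENNReal.coe_mul, ENNReal.coe_toNNReal (ENNReal.rpow_ne_top_of_nonneg
    (by nlinarith) ENNReal.ofReal_ne_top)]
  exact hC D φ hφ g hg V hV hgB hvar hvar'

end Pool.Agent.Y183.PP
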